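import Mathlib
import Pool.Agent.X3.NfaAP
import Pool.Agent.X3.NfaSet

/-!
# Progression-free sets and automatic complexity

Let `r₃(q)` be the largest size of a subset of `{0, …, q - 1}` without three-term arithmetic
progressions. A set without three-term arithmetic progressions whose characteristic word of any
length `N` has automatic complexity `q` has at most `(⌈log₂ q⌉ + 2) (r₃(12 q) + 1)` elements below `N`,
and this is sharp up to a factor `O(log q)`, for all `q` and `N`. Hence the largest progression-free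
sets have nearly maximal automatic complexity.
-/

set_option autoImplicit false

namespace Pool.Agent.Results.MP_0f71ae_nt.AutomaticComplexity

open Classical in
/-- The first `N` values of the characteristic function of `A`. -/
noncomputable def word (A : Set ℕ) (N : ℕ) : List Bool :=
  (List.range N).map fun i => decide (i ∈ A)

/-- The automatic complexity of `A` below `N`: the least number of states of a nondeterministic
finite automaton that accepts the word of the first `N` values of the characteristic function of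
`A`, and no other word of length `N`. -/
noncomputable def complexity (A : Set ℕ) (N : ℕ) : ℕ :=
  sInf {q : ℕ | ∃ M : NFA Bool (Fin q),
    ∀ v : List Bool, v.length = (word A N).length → (v ∈ M.accepts ↔ v = word A N)}

/-- The number of words of length `N` accepted by the automaton. -/
noncomputable def numAccepted {q : ℕ} (M : NFA Bool (Fin q)) (N : ℕ) : ℕ :=
  {w : List Bool | w ∈ M.accepts ∧ w.length = N}.ncard

/-- The number of the `i < N` that belong to exactly one of the sets `A` and `B`. -/
noncomputable def errors (A B : Set ℕ) (N : ℕ) : ℕ := {i | i < N ∧ ¬ (i ∈ A ↔ i ∈ B)}.ncard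

theorem comp_eq (A : Set ℕ) (N : ℕ) :
    complexity A N = Pool.Agent.X3.NfaComp.comp (Pool.Agent.X3.NfaSet.wordS A N) := rfl

theorem word_length (A : Set ℕ) (N : ℕ) : (word A N).length = N := by simp [word]

theorem below_card (A : Set ℕ) (N : ℕ) :
    (Pool.Agent.X3.NfaSidon.below A N).card = (A ∩ Set.Iio N).ncard := by
  classical
  rw [← Set.ncard_coe_finset]
  congr 1
  ext a
  rw [Finset.mem_coe, Pool.Agent.X3.NfaSidon.mem_below, Set.mem_inter_iff, Set.mem_Iio, and_comm]

theorem main (A B : Set ℕ) (N h k q : ℕ) (M : NFA Bool (Fin q))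
    (hA : ThreeAPFree (A ∩ Set.Iio N)) (hacc : word B N ∈ M.accepts) (hE : errors A B N ≤ k)
    (hW : numAccepted M N ≤ 2 ^ h) :
    (A ∩ Set.Iio N).ncard ≤ (h + k + Nat.clog 2 q + 2) * (rothNumberNat (12 * q) + 1) := by
  classical
  have hacc' := hacc
  have hw : word B N = Pool.Agent.X3.NfaSet.wordS B N := rfl
  rw [hw, Pool.Agent.X3.NfaSet.wordS_eq] at hacc'
  have hfin : {i | i < N ∧ ¬ (i ∈ A ↔ i ∈ B)}.Finite :=
    (Set.finite_Iio N).subset fun _ hi => hi.1
  have hfinL : {w : List Bool | w ∈ M.accepts ∧ w.length = N}.Finite :=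
    (List.finite_length_eq Bool N).subset fun _ h => h.2
  have h1 := Pool.Agent.X3.NfaAP.bound M A 2 N h k (rothNumberNat (12 * q) + 1) (by
      intro e s hs1 _ hse heN hap
      have h0 := hap 0 (by omega)
      have h1 := hap 1 (by omega)
      have h2 := hap 2 le_rfl
      have h3 := hA (a := e - 2 * s) ⟨h2, by rw [Set.mem_Iio]; omega⟩ (b := e - 1 * s)
        ⟨h1, by rw [Set.mem_Iio]; omega⟩ (c := e - 0 * s) ⟨h0, by rw [Set.mem_Iio]; omega⟩
        (by omega)
      omega) (by
      intro b
      rw [Fintype.card_fin]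
      have e1 : (2 + 1) * (4 * q) = 12 * q := by ring
      rw [e1]
      have h2 := ThreeAPFree.le_addRothNumber
        (s := (Pool.Agent.X3.NfaSidon.below A N).filter fun a => b ≤ a ∧ a < b + 12 * q)
        (t := Finset.Ico b (b + 12 * q)) (hA.mono (by
          intro a ha
          rw [Finset.mem_coe, Finset.mem_filter, Pool.Agent.X3.NfaSidon.mem_below] at ha
          exact ⟨ha.1.2, ha.1.1⟩)) (by
          intro a ha
          rw [Finset.mem_filter] at ha
          exact Finset.mem_Ico.2 ha.2)
      rw [addRothNumber_Ico, show b + 12 * q - b = 12 * q by omega] at h2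
      omega) _
    (fun i => @decide (i ∈ A) (Classical.propDecidable _)) (by
      intro i j hij
      simpa using hij) hacc' hfin.toFinset (by
      rw [← Set.ncard_eq_toFinset_card _ hfin]
      exact hE) (by
      intro i hi hiE
      rw [Set.Finite.mem_toFinset] at hiE
      have h2 : (i ∈ A ↔ i ∈ B) := by
        by_contra hcon
        exact hiE ⟨hi, hcon⟩
      simp [h2]) (by
      intro W hW1
      refine le_trans ?_ hW
      unfold numAccepted
      rw [← Set.ncard_coe_finset]
      exact Set.ncard_le_ncard (fun w hw => ⟨(hW1 w hw).2, (hW1 w hw).1⟩) hfinL)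
  rw [below_card, Fintype.card_fin] at h1
  exact h1

theorem main' (A : Set ℕ) (N : ℕ) (hA : ThreeAPFree (A ∩ Set.Iio N)) :
    (A ∩ Set.Iio N).ncard ≤
      (Nat.clog 2 (complexity A N) + 2) * (rothNumberNat (12 * complexity A N) + 1) := by
  obtain ⟨M, hM⟩ := Pool.Agent.X3.NfaComp.comp_spec (Pool.Agent.X3.NfaSet.wordS A N)
  rw [Pool.Agent.X3.NfaSet.wordS_length] at hM
  have h1 : word A N ∈ M.accepts := (hM _ (word_length A N)).2 rfl
  have h2 := main A A N 0 0 _ M hA h1 (by
    have : {i | i < N ∧ ¬ (i ∈ A ↔ i ∈ A)} = ∅ := by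
      ext i
      simp
    unfold errors
    rw [this, Set.ncard_empty]) (by
    have h3 : {w : List Bool | w ∈ M.accepts ∧ w.length = N} ⊆ {word A N} := by
      intro w hw
      exact (hM w hw.2).1 hw.1
    unfold numAccepted
    exact (Set.ncard_le_ncard h3 (Set.finite_singleton _)).trans (by rw [Set.ncard_singleton]; norm_num))
  rw [comp_eq]
  simpa using h2

theorem clog_le {q N : ℕ} (hN : 3 ≤ N) (hq : q ≤ N + 1) :
    (Nat.clog 2 q : ℝ) + 2 ≤ 6 * Real.log N := by
  have hN3 : (3 : ℝ) ≤ N := by exact_mod_cast hN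
  have hlog1 : 1 ≤ Real.log N := by
    rw [Real.le_log_iff_exp_le (by linarith)]
    have := Real.exp_one_lt_d9
    linarith
  have h1 : Nat.clog 2 q ≤ Nat.clog 2 (N + 1) := Nat.clog_mono_right 2 hq
  have h2 : (Nat.clog 2 (N + 1) : ℝ) ≤ 3 * Real.log N + 1 := by
    obtain ⟨m, hm⟩ : ∃ m, m = Nat.clog 2 (N + 1) := ⟨_, rfl⟩
    have h3 : 2 ^ (m - 1) < N + 1 := by
      rw [hm]
      exact Nat.pow_pred_clog_lt_self (by norm_num) (by omega)
    have h4 : ((m - 1 : ℕ) : ℝ) * Real.log 2 ≤ Real.log (N ^ 2) := by
      rw [← Real.log_pow]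
      apply Real.log_le_log (by positivity)
      have : (2 : ℝ) ^ (m - 1) < N + 1 := by exact_mod_cast h3
      nlinarith
    rw [Real.log_pow] at h4
    have h5 : 0.6931471803 < Real.log 2 := Real.log_two_gt_d9
    have h6 : (m : ℝ) ≤ ((m - 1 : ℕ) : ℝ) + 1 := by
      have : m ≤ (m - 1) + 1 := by omega
      exact_mod_cast this
    rw [← hm]
    push_cast at h4
    nlinarith [Nat.cast_nonneg (α := ℝ) (m - 1)]
  have h7 : (Nat.clog 2 q : ℝ) ≤ Nat.clog 2 (N + 1) := by exact_mod_cast h1
  linarith

theorem lower (A : Set ℕ) (N : ℕ) (hN : 3 ≤ N) (hA : ThreeAPFree (A ∩ Set.Iio N)) :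
    ((A ∩ Set.Iio N).ncard : ℝ) ≤ 78 * Real.log N * complexity A N := by
  have h1 := main' A N hA
  have hc1 : 1 ≤ complexity A N := Pool.Agent.X3.NfaComp.comp_pos _
  have hc2 : complexity A N ≤ N + 1 := by
    have := Pool.Agent.X3.NfaComp.comp_le (Pool.Agent.X3.NfaSet.wordS A N)
    rwa [Pool.Agent.X3.NfaSet.wordS_length] at this
  obtain ⟨c, hc⟩ : ∃ c, c = complexity A N := ⟨_, rfl⟩
  rw [← hc] at h1 hc1 hc2 ⊢
  have h2 := clog_le hN hc2
  have h3 : rothNumberNat (12 * c) ≤ 12 * c := rothNumberNat_le _
  have h4 : (A ∩ Set.Iio N).ncard ≤ (Nat.clog 2 c + 2) * (13 * c) :=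
    h1.trans (Nat.mul_le_mul_left _ (by omega))
  have h5 : ((A ∩ Set.Iio N).ncard : ℝ) ≤ ((Nat.clog 2 c : ℝ) + 2) * (13 * c) := by
    exact_mod_cast h4
  refine h5.trans ?_
  have h6 : ((Nat.clog 2 c : ℝ) + 2) * (13 * c) ≤ (6 * Real.log N) * (13 * c) :=
    mul_le_mul_of_nonneg_right h2 (by positivity)
  refine h6.trans (le_of_eq ?_)
  ring

/-- `r₃(q)` is Mathlib's `rothNumberNat q`.

(1) Let `A` contain no three-term arithmetic progression below `N`. If some nondeterministic
automaton with `q` states accepts a word that differs from the characteristic word of `A` of length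
`N` in at most `k` places, and at most `2 ^ h` words of length `N`, then `A` has at most
`(h + k + ⌈log₂ q⌉ + 2) (r₃(12 q) + 1)` elements below `N`.

(2) If `A` contains no three-term arithmetic progression below `N` and has automatic complexity `q`
below `N`, then it has at most `(⌈log₂ q⌉ + 2) (r₃(12 q) + 1)` elements below `N`.

(3) For all `q ≤ N` there is a set without three-term arithmetic progressions with `r₃(q)` elements
below `N` and automatic complexity at most `q + 1` below `N`.

(4) If `N ≥ 3`, a set without three-term arithmetic progressions below `N` has at most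
`78 log N` times as many elements below `N` as its automatic complexity.

(5) If `N ≥ 4096`, a set without three-term arithmetic progressions with `r₃(N)` elements below `N`
has automatic complexity at least `N exp (-4 √(log N)) / (78 log N)` (and at most `N + 1`). -/
theorem result :
    (∀ (A B : Set ℕ) (N h k q : ℕ) (M : NFA Bool (Fin q)), ThreeAPFree (A ∩ Set.Iio N) →
      word B N ∈ M.accepts → errors A B N ≤ k → numAccepted M N ≤ 2 ^ h →
      (A ∩ Set.Iio N).ncard ≤ (h + k + Nat.clog 2 q + 2) * (rothNumberNat (12 * q) + 1)) ∧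
    (∀ (A : Set ℕ) (N : ℕ), ThreeAPFree (A ∩ Set.Iio N) → (A ∩ Set.Iio N).ncard ≤
      (Nat.clog 2 (complexity A N) + 2) * (rothNumberNat (12 * complexity A N) + 1)) ∧
    (∀ q N : ℕ, q ≤ N → ∃ A : Set ℕ, ThreeAPFree A ∧ (A ∩ Set.Iio N).ncard = rothNumberNat q ∧
      complexity A N ≤ q + 1) ∧
    (∀ (A : Set ℕ) (N : ℕ), 3 ≤ N → ThreeAPFree (A ∩ Set.Iio N) →
      ((A ∩ Set.Iio N).ncard : ℝ) ≤ 78 * Real.log N * complexity A N) ∧
    (∀ (A : Set ℕ) (N : ℕ), 4096 ≤ N → ThreeAPFree (A ∩ Set.Iio N) →
      (A ∩ Set.Iio N).ncard = rothNumberNat N →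
      (N : ℝ) * Real.exp (-4 * Real.sqrt (Real.log N)) / (78 * Real.log N) ≤ complexity A N ∧
      complexity A N ≤ N + 1) := by
  refine ⟨main, main', ?_, lower, ?_⟩
  · intro q N hqN
    obtain ⟨t, ht1, ht2, ht3⟩ := rothNumberNat_spec q
    refine ⟨t, ht3, ?_, ?_⟩
    · have : (t : Set ℕ) ∩ Set.Iio N = t := by
        apply Set.inter_eq_left.2
        intro a ha
        have := Finset.mem_range.1 (ht1 ha)
        rw [Set.mem_Iio]
        omega
      rw [this, Set.ncard_coe_finset, ht2]
    · rw [comp_eq]
      exact Pool.Agent.X3.NfaSet.comp_set_le (fun a ha => Finset.mem_range.1 (ht1 ha)) N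
  · intro A N hN hA hcard
    have h1 := lower A N (by omega) hA
    rw [hcard] at h1
    have h2 := Behrend.roth_lower_bound_explicit hN
    have hNR : (4096 : ℝ) ≤ N := by exact_mod_cast hN
    have hlog : 0 < Real.log N := Real.log_pos (by linarith)
    constructor
    · rw [div_le_iff₀ (by positivity)]
      calc (N : ℝ) * Real.exp (-4 * Real.sqrt (Real.log N)) ≤ rothNumberNat N := h2.le
        _ ≤ 78 * Real.log N * complexity A N := h1
        _ = complexity A N * (78 * Real.log N) := by ring
    · have := Pool.Agent.X3.NfaComp.comp_le (Pool.Agent.X3.NfaSet.wordS A N)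
      rwa [Pool.Agent.X3.NfaSet.wordS_length] at this

end Pool.Agent.Results.MP_0f71ae_nt.AutomaticComplexity
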