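import Pool.Agent.X149.LowDegree

set_option autoImplicit false

/-!
# Progression-free sets support no functions of low digit degree

Let `b ≥ 2`, let `K` be any field and let `f` be a function with values in `K` on the integers which
is a linear combination of functions depending on at most `d` digits in base `b`. If `f` does not
vanish at the integer `x` of `[0, b ^ n)`, then `x` is the first term of many progressions on which
`f` does not vanish, as soon as `n` is larger than a small multiple of `d`; so a set without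
three-term progressions contains the support of no such function.
-/

namespace Pool.Agent.Results.MP_0f71ae_nt.DigitDegree

open Finset Pool.Agent.X149

/-- `f` is a linear combination, with coefficients in `K`, of functions each of which depends on at
most `d` of the digits in base `b` (the digit number `i` of `x` is `x / b ^ i % b`). -/
def DegreeLE (K : Type) [Field K] (b d : ℕ) (f : ℕ → K) : Prop :=
  f ∈ Submodule.span K {g : ℕ → K | ∃ T : Finset ℕ, T.card ≤ d ∧
    ∀ x y : ℕ, (∀ i ∈ T, x / b ^ i % b = y / b ^ i % b) → g x = g y}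

/-- The differences `D` (of any sign) of the progressions `x, x + D, …, x + (k - 1) D` in the set of
the integers `y` with `0 ≤ y < N` and `f y ≠ 0`. -/
def apDiffs {K : Type} [Field K] (k N : ℕ) (f : ℕ → K) (x : ℕ) : Set ℤ :=
  {D : ℤ | ∀ j < k, ∃ y : ℕ, y < N ∧ (y : ℤ) = x + j * D ∧ f y ≠ 0}

section lift
variable {K : Type} [Field K]

theorem exists_lift {b d : ℕ} {f : ℕ → K} (hf : DegreeLE K b d f) :
    ∃ F : (ℕ → ℕ) → K, LD.Deg K d F ∧ ∀ x, f x = F (fun i => x / b ^ i % b) := by
  classical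
  refine Submodule.span_induction
    (p := fun (u : ℕ → K) _ => ∃ F : (ℕ → ℕ) → K, LD.Deg K d F ∧
      ∀ x, u x = F (fun i => x / b ^ i % b)) ?_ ?_ ?_ ?_ hf
  · rintro g ⟨T, hT, hg⟩
    refine ⟨fun u => if h : ∃ x : ℕ, ∀ i ∈ T, x / b ^ i % b = u i then g h.choose else 0, ?_, ?_⟩
    · refine LD.deg_of_dep hT ?_
      intro u v huv
      by_cases h : ∃ x : ℕ, ∀ i ∈ T, x / b ^ i % b = u i
      · have h' : ∃ x : ℕ, ∀ i ∈ T, x / b ^ i % b = v i := by
          obtain ⟨x, hx⟩ := h
          exact ⟨x, fun i hi => by rw [hx i hi, huv i hi]⟩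
        simp only [h, h', dif_pos]
        refine hg _ _ (fun i hi => ?_)
        rw [h.choose_spec i hi, h'.choose_spec i hi, huv i hi]
      · have h' : ¬ ∃ x : ℕ, ∀ i ∈ T, x / b ^ i % b = v i := by
          rintro ⟨x, hx⟩
          exact h ⟨x, fun i hi => by rw [hx i hi, huv i hi]⟩
        simp only [h, h', dif_neg, not_false_eq_true]
    · intro x
      have h : ∃ y : ℕ, ∀ i ∈ T, y / b ^ i % b = x / b ^ i % b := ⟨x, fun _ _ => rfl⟩
      simp only [h, dif_pos]
      exact hg _ _ (fun i hi => (h.choose_spec i hi).symm)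
  · exact ⟨fun _ => 0, LD.deg_const 0 d, fun _ => rfl⟩
  · rintro u v _ _ ⟨F, hF, hu⟩ ⟨G, hG, hv⟩
    exact ⟨fun x => F x + G x, LD.deg_add hF hG, fun x => by rw [Pi.add_apply, hu, hv]⟩
  · rintro r u _ ⟨F, hF, hu⟩
    exact ⟨fun x => r * F x, LD.deg_smul r hF, fun x => by rw [Pi.smul_apply, smul_eq_mul, hu]⟩

theorem of_lift {b d : ℕ} {F : (ℕ → ℕ) → K} (hF : LD.Deg K d F) :
    DegreeLE K b d (fun x => F (fun i => x / b ^ i % b)) := by
  refine Submodule.span_induction
    (p := fun (u : (ℕ → ℕ) → K) _ => DegreeLE K b d (fun x => u (fun i => x / b ^ i % b)))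
    ?_ ?_ ?_ ?_ hF
  · rintro u ⟨T, hT, hu⟩
    exact Submodule.subset_span ⟨T, hT, fun x y h => hu _ _ h⟩
  · exact Submodule.zero_mem _
  · intro x y _ _ h1 h2
    exact Submodule.add_mem _ h1 h2
  · intro r x _ h
    exact Submodule.smul_mem _ r h

end lift

/-- the number with the lowest `n` digits `Y 0, …, Y (n - 1)` in base `B`, and `R` above -/
def val (B : ℕ) : ℕ → (ℕ → ℕ) → ℕ → ℕ
  | 0, _, R => R
  | n + 1, Y, R => Y 0 + B * val B n (fun i => Y (i + 1)) R

/-- the same for integer digits -/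
def dval (B : ℕ) : ℕ → (ℕ → ℤ) → ℤ
  | 0, _ => 0
  | n + 1, e => e 0 + B * dval B n (fun i => e (i + 1))

theorem val_digit {B : ℕ} (hB : 0 < B) : ∀ (n : ℕ) (Y : ℕ → ℕ) (R : ℕ), (∀ i < n, Y i < B) →
    ∀ t < n, val B n Y R / B ^ t % B = Y t := by
  intro n
  induction n with
  | zero => intro Y R _ t ht; omega
  | succ n ih =>
    intro Y R hY t ht
    have h0 := hY 0 (by omega)
    have hdiv : val B (n + 1) Y R / B = val B n (fun i => Y (i + 1)) R := by
      rw [val, Nat.add_mul_div_left _ _ hB, Nat.div_eq_of_lt h0, zero_add]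
    cases t with
    | zero =>
      rw [pow_zero, Nat.div_one, val, Nat.add_mul_mod_self_left, Nat.mod_eq_of_lt h0]
    | succ t =>
      rw [pow_succ', ← Nat.div_div_eq_div_mul, hdiv]
      exact ih (fun i => Y (i + 1)) R (fun i hi => hY (i + 1) (by omega)) t (by omega)

theorem val_top {B : ℕ} (hB : 0 < B) : ∀ (n : ℕ) (Y : ℕ → ℕ) (R : ℕ), (∀ i < n, Y i < B) →
    val B n Y R / B ^ n = R := by
  intro n
  induction n with
  | zero => intro Y R _; simp [val]
  | succ n ih =>
    intro Y R hY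
    have h0 := hY 0 (by omega)
    have hdiv : val B (n + 1) Y R / B = val B n (fun i => Y (i + 1)) R := by
      rw [val, Nat.add_mul_div_left _ _ hB, Nat.div_eq_of_lt h0, zero_add]
    rw [pow_succ', ← Nat.div_div_eq_div_mul, hdiv]
    exact ih (fun i => Y (i + 1)) R (fun i hi => hY (i + 1) (by omega))

theorem val_lt {B : ℕ} : ∀ (n : ℕ) (Y : ℕ → ℕ) (R : ℕ), (∀ i < n, Y i < B) →
    val B n Y R < B ^ n * (R + 1) := by
  intro n
  induction n with
  | zero => intro Y R _; simp [val]
  | succ n ih =>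
    intro Y R hY
    have h0 := hY 0 (by omega)
    have h1 := ih (fun i => Y (i + 1)) R (fun i hi => hY (i + 1) (by omega))
    rw [val]
    calc Y 0 + B * val B n (fun i => Y (i + 1)) R
        < B + B * val B n (fun i => Y (i + 1)) R := by omega
      _ = B * (val B n (fun i => Y (i + 1)) R + 1) := by ring
      _ ≤ B * (B ^ n * (R + 1)) := Nat.mul_le_mul_left _ h1
      _ = B ^ (n + 1) * (R + 1) := by ring

theorem val_self {B : ℕ} : ∀ (n x : ℕ), val B n (fun i => x / B ^ i % B) (x / B ^ n) = x := by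
  intro n
  induction n with
  | zero => intro x; simp [val]
  | succ n ih =>
    intro x
    have h1 := ih (x / B)
    have h2 : (fun i => x / B / B ^ i % B) = fun i => x / B ^ (i + 1) % B := by
      funext i
      rw [Nat.div_div_eq_div_mul, ← pow_succ']
    rw [h2, Nat.div_div_eq_div_mul, ← pow_succ'] at h1
    rw [val, h1, pow_zero, Nat.div_one]
    exact Nat.mod_add_div x B

theorem val_lin {B : ℕ} (j : ℤ) : ∀ (n : ℕ) (Y Y' : ℕ → ℕ) (e : ℕ → ℤ) (R : ℕ),
    (∀ i < n, (Y' i : ℤ) = Y i + j * e i) →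
    (val B n Y' R : ℤ) = val B n Y R + j * dval B n e := by
  intro n
  induction n with
  | zero => intro Y Y' e R _; simp [val, dval]
  | succ n ih =>
    intro Y Y' e R h
    have h0 := h 0 (by omega)
    have h1 := ih (fun i => Y (i + 1)) (fun i => Y' (i + 1)) (fun i => e (i + 1)) R
      (fun i hi => h (i + 1) (by omega))
    rw [val, val, dval]
    push_cast
    rw [h1, h0]
    ring

theorem mod_digit {b l m : ℕ} (hl : l < m) (V : ℕ) : V / b ^ l % b = V % b ^ m / b ^ l % b := by
  have h1 : b ^ m = b ^ l * b ^ (m - l) := by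
    rw [← pow_add]
    congr 1
    omega
  rw [h1, Nat.mod_mul_right_div_self]
  exact (Nat.mod_mod_of_dvd _ (dvd_pow_self b (by omega))).symm

theorem val_block {b m n : ℕ} (hb : 0 < b) (hm : 0 < m) (Y : ℕ → ℕ) (R : ℕ)
    (hY : ∀ i < n, Y i < b ^ m) (t : ℕ) (ht : t / m < n) :
    val (b ^ m) n Y R / b ^ t % b = Y (t / m) / b ^ (t % m) % b := by
  have h1 : b ^ t = (b ^ m) ^ (t / m) * b ^ (t % m) := by
    rw [← pow_mul, ← pow_add, Nat.div_add_mod]
  rw [h1, ← Nat.div_div_eq_div_mul, mod_digit (Nat.mod_lt t hm),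
    val_digit (pow_pos hb m) n Y R hY _ ht]

theorem val_above {b m n : ℕ} (hb : 0 < b) (Y : ℕ → ℕ) (R : ℕ)
    (hY : ∀ i < n, Y i < b ^ m) (t : ℕ) (ht : n ≤ t / m) :
    val (b ^ m) n Y R / b ^ t % b = R / b ^ (t - m * n) % b := by
  have h2 : m * n ≤ t := by
    calc m * n ≤ m * (t / m) := Nat.mul_le_mul_left _ ht
      _ ≤ t := Nat.mul_div_le t m
  have h1 : b ^ t = (b ^ m) ^ n * b ^ (t - m * n) := by
    rw [← pow_mul, ← pow_add]
    congr 1
    omega
  rw [h1, ← Nat.div_div_eq_div_mul, val_top (pow_pos hb m) n Y R hY]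

section main
variable {K : Type} [Field K]

theorem deg_val {κ : Type} {b d : ℕ} {f : ℕ → K} (hf : DegreeLE K b d f) {m n : ℕ} (hb : 0 < b)
    (hm : 0 < m) (R : ℕ) (Y : (κ → Bool) → ℕ → ℕ) (hY : ∀ w, ∀ i < n, Y w i < b ^ m)
    (hdep : ∀ i < n, ∃ T : Finset κ, T.card ≤ 1 ∧ LD.Dep T (fun w => Y w i)) :
    LD.Deg K d (fun w => f (val (b ^ m) n (Y w) R)) := by
  classical
  obtain ⟨F, hF, hfF⟩ := exists_lift hf
  have h1 := LD.deg_comp (κ := κ) (β := Bool) (m := 1) hF
    (fun w i => val (b ^ m) n (Y w) R / b ^ i % b) (by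
      intro t
      by_cases ht : t / m < n
      · obtain ⟨T, hT, hd⟩ := hdep _ ht
        refine ⟨T, hT, ?_⟩
        intro w w' h
        show val (b ^ m) n (Y w) R / b ^ t % b = val (b ^ m) n (Y w') R / b ^ t % b
        rw [val_block hb hm _ _ (hY w) t ht, val_block hb hm _ _ (hY w') t ht]
        have := hd w w' h
        simp only at this
        rw [this]
      · refine ⟨∅, by simp, ?_⟩
        intro w w' _
        show val (b ^ m) n (Y w) R / b ^ t % b = val (b ^ m) n (Y w') R / b ^ t % b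
        rw [val_above hb _ _ (hY w) t (by omega), val_above hb _ _ (hY w') t (by omega)])
  rw [one_mul] at h1
  have e : (fun w => f (val (b ^ m) n (Y w) R)) = fun w : κ → Bool =>
      F (fun i => val (b ^ m) n (Y w) R / b ^ i % b) := by
    funext w
    exact hfF _
  rw [e]
  exact h1

theorem apDiffs_finite {k N : ℕ} (hk : 2 ≤ k) (f : ℕ → K) (x : ℕ) : (apDiffs k N f x).Finite := by
  refine Set.Finite.subset (Set.Finite.image (fun y : ℕ => (y : ℤ) - x) (Set.finite_lt_nat N)) ?_
  intro D hD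
  obtain ⟨y, h1, h2, -⟩ := hD 1 (by omega)
  refine ⟨y, h1, ?_⟩
  simp only
  rw [h2]
  ring

/-- The digit number `i` of `x` can be moved. -/
def Mov (k B x i : ℕ) : Prop := x / B ^ i % B + k ≤ B ∨ k ≤ x / B ^ i % B + 1

theorem core {b d : ℕ} {f : ℕ → K} (hf : DegreeLE K b d f) {m n k : ℕ} (hb : 0 < b) (hm : 0 < m)
    (hk : 2 ≤ k) (x : ℕ) (M : Finset ℕ) (hM : ∀ i ∈ M, i < n) (hmov : ∀ i ∈ M, Mov k (b ^ m) x i)
    {N : ℕ} (hN : (b ^ m) ^ n * (x / (b ^ m) ^ n + 1) ≤ N) (hx : f x ≠ 0) :
    2 ^ M.card ≤ 2 ^ ((k - 1) * d) * Set.ncard (apDiffs k N f x) := by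
  classical
  have hB : 0 < b ^ m := pow_pos hb m
  set B := b ^ m with hBdef
  let X : ℕ → ℕ := fun i => x / B ^ i % B
  have hX : ∀ i, X i < B := fun i => Nat.mod_lt _ hB
  let Y : ℕ → (M → Bool) → ℕ → ℕ := fun j w i =>
    if h : i ∈ M then (if w ⟨i, h⟩ = true then (if X i + k ≤ B then X i + j else X i - j) else X i)
    else X i
  let e : (M → Bool) → ℕ → ℤ := fun w i =>
    if h : i ∈ M then (if w ⟨i, h⟩ = true then (if X i + k ≤ B then 1 else -1) else 0) else 0
  have hYe : ∀ j < k, ∀ w i, (Y j w i : ℤ) = X i + j * e w i := by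
    intro j hj w i
    simp only [Y, e]
    by_cases h : i ∈ M
    · by_cases hw : w ⟨i, h⟩ = true
      · by_cases hu : X i + k ≤ B
        · simp [h, hw, hu]
        · have h1 := (hmov i h).resolve_left hu
          have h2 : j ≤ X i := by
            have : k ≤ X i + 1 := h1
            omega
          simp only [h, hw, hu, dif_pos, if_true, if_false]
          rw [Nat.cast_sub h2]
          ring
      · simp [h, hw]
    · simp [h]
  have hYB : ∀ j < k, ∀ w i, Y j w i < B := by
    intro j hj w i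
    have h0 := hX i
    simp only [Y]
    split_ifs <;> omega
  have hY0 : ∀ w, Y 0 w = X := by
    intro w; funext i
    simp only [Y]
    split_ifs <;> simp
  have hYf : ∀ j, Y j (fun _ => false) = X := by
    intro j; funext i
    simp [Y]
  have hval : ∀ j < k, ∀ w, (val B n (Y j w) (x / B ^ n) : ℤ) = x + j * dval B n (e w) := by
    intro j hj w
    have h1 := val_lin (B := B) (j : ℤ) n X (Y j w) (e w) (x / B ^ n)
      (fun i _ => hYe j hj w i)
    rw [h1]
    have h2 : val B n X (x / B ^ n) = x := val_self n x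
    rw [h2]
  have hdeg : ∀ j < k, LD.Deg K d (fun w : M → Bool => f (val B n (Y j w) (x / B ^ n))) := by
    intro j hj
    refine deg_val hf hb hm _ (Y j) (fun w i _ => hYB j hj w i) ?_
    intro i _
    by_cases h : i ∈ M
    · refine ⟨{⟨i, h⟩}, by simp, ?_⟩
      intro w w' hw
      have := hw ⟨i, h⟩ (Finset.mem_singleton_self _)
      simp only [Y, h, dif_pos, this]
    · refine ⟨∅, by simp, ?_⟩
      intro w w' _
      simp only [Y, h, dif_neg, not_false_eq_true]
  have hF := LD.deg_prod (Finset.range (k - 1)) (fun _ => d)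
    (fun j (w : M → Bool) => f (val B n (Y (j + 1) w) (x / B ^ n)))
    (fun j hj => hdeg (j + 1) (by have := Finset.mem_range.1 hj; omega))
  rw [Finset.sum_const, Finset.card_range, smul_eq_mul] at hF
  have h3 := LD.support_card hF (x := fun _ => false) (by
    simp only [hYf]
    have h2 : val B n X (x / B ^ n) = x := val_self n x
    rw [h2]
    exact Finset.prod_ne_zero_iff.2 (fun _ _ => hx))
  rw [Fintype.card_coe] at h3
  refine h3.trans (Nat.mul_le_mul_left _ ?_)
  refine Set.ncard_le_ncard_of_injOn (fun w => dval B n (e w)) ?_ ?_ (apDiffs_finite hk f x)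
  · intro w hw
    have hw' : (∏ j ∈ Finset.range (k - 1), f (val B n (Y (j + 1) w) (x / B ^ n))) ≠ 0 := hw
    rw [Finset.prod_ne_zero_iff] at hw'
    intro j hj
    refine ⟨val B n (Y j w) (x / B ^ n), ?_, hval j hj w, ?_⟩
    · exact (val_lt n (Y j w) _ (fun i _ => hYB j hj w i)).trans_le hN
    · cases j with
      | zero =>
        rw [hY0]
        have h2 : val B n X (x / B ^ n) = x := val_self n x
        rw [h2]
        exact hx
      | succ j => exact hw' j (Finset.mem_range.2 (by omega))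
  · intro w _ w' _ hww
    have hww' : dval B n (e w) = dval B n (e w') := hww
    have h4 := hval 1 (by omega) w
    have h5 := hval 1 (by omega) w'
    rw [hww', ← h5] at h4
    have h6 : val B n (Y 1 w) (x / B ^ n) = val B n (Y 1 w') (x / B ^ n) := by exact_mod_cast h4
    funext ⟨i, hi⟩
    have h7 := val_digit hB n (Y 1 w) (x / B ^ n) (fun i _ => hYB 1 (by omega) w i) i (hM i hi)
    have h8 := val_digit hB n (Y 1 w') (x / B ^ n) (fun i _ => hYB 1 (by omega) w' i) i (hM i hi)
    rw [h6, h8] at h7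
    have h9 := hmov i hi
    have h10 : X i = x / B ^ i % B := rfl
    simp only [Y, hi, dif_pos] at h7
    unfold Mov at h9
    rw [← h10] at h9
    cases hw1 : w ⟨i, hi⟩ <;> cases hw2 : w' ⟨i, hi⟩
    · rfl
    · exfalso
      rw [hw1, hw2] at h7
      simp only [if_true, Bool.false_eq_true, if_false] at h7
      split_ifs at h7 <;> omega
    · exfalso
      rw [hw1, hw2] at h7
      simp only [if_true, Bool.false_eq_true, if_false] at h7
      split_ifs at h7 <;> omega
    · rfl

/-- all blocks can be moved -/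
theorem count_blocks {b d : ℕ} {f : ℕ → K} (hf : DegreeLE K b d f) {m n k : ℕ} (hb : 0 < b)
    (hm : 0 < m) (hk : 2 ≤ k) (hB : 2 * k ≤ b ^ m + 2) (x : ℕ) (hxn : x < b ^ n) (hx : f x ≠ 0) :
    2 ^ (n / m) ≤ 2 ^ ((k - 1) * d) * Set.ncard (apDiffs k (b ^ n) f x) := by
  have h := core hf (n := n / m) hb hm hk x (Finset.range (n / m))
    (fun i hi => Finset.mem_range.1 hi) (fun i _ => by unfold Mov; omega)
    (N := b ^ n) ?_ hx
  · rwa [Finset.card_range] at h
  · have h1 : m * (n / m) ≤ n := Nat.mul_div_le n m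
    have h2 : b ^ n = (b ^ m) ^ (n / m) * b ^ (n - m * (n / m)) := by
      rw [← pow_mul, ← pow_add]
      congr 1
      omega
    rw [h2]
    refine Nat.mul_le_mul_left _ ?_
    rw [Nat.succ_le_iff, Nat.div_lt_iff_lt_mul (by positivity), Nat.mul_comm, ← h2]
    exact hxn

/-- few immovable digits -/
theorem count_few {b d : ℕ} {f : ℕ → K} (hf : DegreeLE K b d f) {n k : ℕ} (hk : 2 ≤ k)
    (hB : k ≤ b) (hne : ∃ x < b ^ n, f x ≠ 0) :
    ∃ x < b ^ n, f x ≠ 0 ∧ 2 ^ n ≤ 2 ^ (k * d) * Set.ncard (apDiffs k (b ^ n) f x) := by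
  classical
  have hb : 0 < b := by omega
  let imm : ℕ → Finset ℕ := fun x => (Finset.range n).filter (fun i => ¬ Mov k b x i)
  obtain ⟨x, hxs, hmin⟩ := Finset.exists_min_image ((Finset.range (b ^ n)).filter (fun x => f x ≠ 0))
    (fun x => (imm x).card) (by
      obtain ⟨x, h1, h2⟩ := hne
      exact ⟨x, Finset.mem_filter.2 ⟨Finset.mem_range.2 h1, h2⟩⟩)
  obtain ⟨hxn, hx⟩ := Finset.mem_filter.1 hxs
  rw [Finset.mem_range] at hxn
  refine ⟨x, hxn, hx, ?_⟩
  -- the immovable digits
  have hU : (imm x).card ≤ d := by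
    let Y : (imm x → Bool) → ℕ → ℕ := fun v i =>
      if h : i ∈ imm x then (if v ⟨i, h⟩ = true then 0 else x / b ^ i % b) else x / b ^ i % b
    have hYB : ∀ v, ∀ i, Y v i < b := by
      intro v i
      have h0 : x / b ^ i % b < b := Nat.mod_lt _ hb
      simp only [Y]
      split_ifs <;> omega
    have hYf : Y (fun _ => false) = fun i => x / b ^ i % b := by
      funext i
      simp [Y]
    have hd := deg_val hf (m := 1) (n := n) hb one_pos (x / b ^ n) Y
      (fun v i _ => by rw [pow_one]; exact hYB v i) (by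
        intro i _
        by_cases h : i ∈ imm x
        · refine ⟨{⟨i, h⟩}, by simp, ?_⟩
          intro w w' hw
          have := hw ⟨i, h⟩ (Finset.mem_singleton_self _)
          simp only [Y, h, dif_pos, this]
        · refine ⟨∅, by simp, ?_⟩
          intro w w' _
          simp only [Y, h, dif_neg, not_false_eq_true])
    rw [pow_one] at hd
    have hfx : val b n (Y (fun _ => false)) (x / b ^ n) = x := by
      rw [hYf]
      exact val_self n x
    have h3 := LD.support_card hd (x := fun _ => false) (by rw [hfx]; exact hx)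
    rw [Fintype.card_coe] at h3
    have h4 : Set.ncard {v : imm x → Bool | f (val b n (Y v) (x / b ^ n)) ≠ 0} ≤ 1 := by
      rw [Set.ncard_le_one_iff_subset_singleton]
      refine ⟨fun _ => false, ?_⟩
      intro v hv
      rw [Set.mem_singleton_iff]
      by_contra hne
      have hv' : f (val b n (Y v) (x / b ^ n)) ≠ 0 := hv
      have hlt : val b n (Y v) (x / b ^ n) < b ^ n := by
        have h5 := val_lt n (Y v) (x / b ^ n) (fun i _ => hYB v i)
        rw [Nat.div_eq_of_lt hxn] at h5 ⊢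
        rwa [zero_add, mul_one] at h5
      have h6 := hmin (val b n (Y v) (x / b ^ n))
        (Finset.mem_filter.2 ⟨Finset.mem_range.2 hlt, hv'⟩)
      have hdig : ∀ i < n, val b n (Y v) (x / b ^ n) / b ^ i % b = Y v i := fun i hi =>
        val_digit hb n (Y v) _ (fun i _ => hYB v i) i hi
      obtain ⟨⟨i, hi⟩, hvi⟩ := Function.ne_iff.1 hne
      have hvi' : v ⟨i, hi⟩ = true := by simpa using hvi
      have h7 : imm (val b n (Y v) (x / b ^ n)) ⊆ (imm x).erase i := by
        intro t ht
        obtain ⟨ht1, ht2⟩ := Finset.mem_filter.1 ht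
        have htn := Finset.mem_range.1 ht1
        unfold Mov at ht2
        rw [hdig t htn] at ht2
        by_cases h8 : t ∈ imm x
        · refine Finset.mem_erase.2 ⟨?_, h8⟩
          rintro rfl
          apply ht2
          simp only [Y, hi, dif_pos, hvi', if_true]
          left
          omega
        · exfalso
          simp only [Y, h8, dif_neg, not_false_eq_true] at ht2
          exact h8 (Finset.mem_filter.2 ⟨ht1, by unfold Mov; exact ht2⟩)
      have h9 := Finset.card_le_card h7
      rw [Finset.card_erase_of_mem hi] at h9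
      have h10 : 0 < (imm x).card := Finset.card_pos.2 ⟨i, hi⟩
      omega
    have h5 : 2 ^ (imm x).card ≤ 2 ^ d := by
      calc 2 ^ (imm x).card ≤ 2 ^ d * _ := h3
        _ ≤ 2 ^ d * 1 := Nat.mul_le_mul_left _ h4
        _ = 2 ^ d := mul_one _
    exact (Nat.pow_le_pow_iff_right (by norm_num)).1 h5
  have h := core hf (m := 1) (n := n) hb one_pos hk x ((Finset.range n).filter (Mov k b x))
    (fun i hi => Finset.mem_range.1 (Finset.mem_filter.1 hi).1)
    (fun i hi => by rw [pow_one]; exact (Finset.mem_filter.1 hi).2)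
    (N := b ^ n) (by rw [pow_one, Nat.div_eq_of_lt hxn, zero_add, mul_one]) hx
  have h1 : ((Finset.range n).filter (Mov k b x)).card + (imm x).card = n := by
    have := Finset.card_filter_add_card_filter_not (s := Finset.range n) (p := Mov k b x)
    rw [Finset.card_range] at this
    exact this
  calc 2 ^ n = 2 ^ ((Finset.range n).filter (Mov k b x)).card * 2 ^ (imm x).card := by
        rw [← pow_add, h1]
    _ ≤ (2 ^ ((k - 1) * d) * Set.ncard (apDiffs k (b ^ n) f x)) * 2 ^ d :=
        Nat.mul_le_mul h (Nat.pow_le_pow_right (by norm_num) hU)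
    _ = 2 ^ (k * d) * Set.ncard (apDiffs k (b ^ n) f x) := by
        obtain ⟨k', rfl⟩ := Nat.exists_eq_add_of_le' (show 1 ≤ k by omega)
        rw [Nat.add_sub_cancel, Nat.add_mul, one_mul, pow_add]
        ring

/-- two progressions give a progression with nonzero difference -/
theorem not_free {f : ℕ → K} {N x : ℕ} (h : 2 ≤ Set.ncard (apDiffs 3 N f x)) {A : Set ℕ}
    (hA : ∀ y < N, f y ≠ 0 → y ∈ A) : ¬ ThreeAPFree A := by
  intro hfree
  obtain ⟨D, hD, hD0⟩ := Set.exists_ne_of_one_lt_ncard (by omega : 1 < Set.ncard (apDiffs 3 N f x)) 0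
  obtain ⟨y0, a0, b0, c0⟩ := hD 0 (by omega)
  obtain ⟨y1, a1, b1, c1⟩ := hD 1 (by omega)
  obtain ⟨y2, a2, b2, c2⟩ := hD 2 (by omega)
  have h1 := hfree (hA _ a0 c0) (hA _ a1 c1) (hA _ a2 c2) (by
    push_cast at b0 b1 b2
    omega)
  subst h1
  apply hD0
  push_cast at b0 b1
  omega

theorem two_le_of_pow {n e c : ℕ} (h : 2 ^ n ≤ 2 ^ e * c) (hlt : e < n) : 2 ≤ c := by
  have h5 : 2 ^ e * 2 ≤ 2 ^ n := by
    rw [← pow_succ]
    exact Nat.pow_le_pow_right (by norm_num) hlt
  exact Nat.le_of_mul_le_mul_left (h5.trans h) (by positivity)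

/-- **Few digits and a large base.** -/
theorem roth_count {b d n : ℕ} {f : ℕ → K} (hf : DegreeLE K b d f) (hb : 2 ≤ b) (hn : 0 < n)
    (hd : d ≤ n) {x : ℕ} (hxn : x < b ^ n) (hx : f x ≠ 0) {A : Set ℕ}
    (hA : ∀ y < b ^ n, f y ≠ 0 → y ∈ A) (hfree : ThreeAPFree A) :
    (2 ^ (n - d) - 1) * (b - 1) ≤ (2 ^ n - 1) * rothNumberNat b := by
  classical
  have hb0 : 0 < b := by omega
  let a : ℕ → ℕ := fun i => x / b ^ i % b
  have ha : ∀ i, a i < b := fun i => Nat.mod_lt _ hb0
  let Ω : Finset (Fin n → ℕ) := Fintype.piFinset (fun i => (Finset.range b).erase (a i))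
  have hcard1 : ∀ i, ((Finset.range b).erase (a i)).card = b - 1 := by
    intro i
    rw [Finset.card_erase_of_mem (Finset.mem_range.2 (ha i)), Finset.card_range]
  have hΩ : Ω.card = (b - 1) ^ n := by
    rw [Fintype.card_piFinset]
    simp only [hcard1]
    rw [Finset.prod_const, Finset.card_univ, Fintype.card_fin]
  let Y : (Fin n → ℕ) → (Fin n → Bool) → ℕ → ℕ := fun c v i =>
    if h : i < n then (if v ⟨i, h⟩ = true then c ⟨i, h⟩ else a i) else 0
  have hc : ∀ c ∈ Ω, ∀ i, c i < b := by
    intro c hc i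
    have := Fintype.mem_piFinset.1 hc i
    exact Finset.mem_range.1 (Finset.mem_of_mem_erase this)
  have hYB : ∀ c ∈ Ω, ∀ v i, Y c v i < b := by
    intro c hcΩ v i
    have h1 := ha i
    simp only [Y]
    split_ifs with h2 h3
    · exact hc c hcΩ _
    · exact h1
    · exact hb0
  let P : (Fin n → ℕ) → (Fin n → Bool) → Prop := fun c v => f (val b n (Y c v) 0) ≠ 0
  have hlow : ∀ c ∈ Ω, 2 ^ (n - d) - 1 ≤
      ((Finset.univ.filter (fun v : Fin n → Bool => v ≠ fun _ => false)).filter (P c)).card := by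
    intro c hcΩ
    have hdeg := deg_val hf (m := 1) (n := n) hb0 one_pos 0 (Y c)
      (fun v i _ => by rw [pow_one]; exact hYB c hcΩ v i) (by
        intro i hi
        refine ⟨{⟨i, hi⟩}, by simp, ?_⟩
        intro w w' hw
        have := hw ⟨i, hi⟩ (Finset.mem_singleton_self _)
        simp only [Y, hi, dif_pos, this])
    rw [pow_one] at hdeg
    have hfx : val b n (Y c (fun _ => false)) 0 = x := by
      have h1 : val b n (Y c (fun _ => false)) 0 = val b n a 0 := by
        have h2 := val_lin (B := b) 0 n a (Y c (fun _ => false)) (fun _ => 0) 0 (by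
          intro i hi
          simp [Y, hi])
        rw [zero_mul, add_zero] at h2
        exact_mod_cast h2
      rw [h1]
      have h3 := val_self (B := b) n x
      rw [Nat.div_eq_of_lt hxn] at h3
      exact h3
    have h3 := LD.support_card hdeg (x := fun _ => false) (by rw [hfx]; exact hx)
    rw [Fintype.card_fin] at h3
    have h4 : Set.ncard {v : Fin n → Bool | f (val b n (Y c v) 0) ≠ 0} ≤
        ((Finset.univ.filter (fun v : Fin n → Bool => v ≠ fun _ => false)).filter (P c)).card
          + 1 := by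
      have h5 : {v : Fin n → Bool | f (val b n (Y c v) 0) ≠ 0} ⊆
          ((insert (fun _ => false) ((Finset.univ.filter
            (fun v : Fin n → Bool => v ≠ fun _ => false)).filter (P c)) :
            Finset (Fin n → Bool)) : Set (Fin n → Bool)) := by
        intro v hv
        rw [Finset.mem_coe, Finset.mem_insert]
        by_cases h : v = fun _ => false
        · exact Or.inl h
        · exact Or.inr (Finset.mem_filter.2 ⟨Finset.mem_filter.2 ⟨Finset.mem_univ _, h⟩, hv⟩)
      have h6 := Set.ncard_le_ncard h5 (Finset.finite_toSet _)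
      rw [Set.ncard_coe_finset] at h6
      exact h6.trans (Finset.card_insert_le _ _)
    have h5 : 2 ^ (n - d) ≤ Set.ncard {v : Fin n → Bool | f (val b n (Y c v) 0) ≠ 0} := by
      have h6 : 2 ^ n = 2 ^ d * 2 ^ (n - d) := by
        rw [← pow_add]
        congr 1
        omega
      rw [h6] at h3
      exact Nat.le_of_mul_le_mul_left h3 (by positivity)
    omega
  have hup : ∀ v ∈ Finset.univ.filter (fun v : Fin n → Bool => v ≠ fun _ => false),
      (Ω.filter (fun c => P c v)).card ≤ rothNumberNat b * (b - 1) ^ (n - 1) := by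
    intro v hv
    obtain ⟨i, hvi⟩ := Function.ne_iff.1 (Finset.mem_filter.1 hv).2
    have hvi' : v i = true := by simpa using hvi
    have h1 := Finset.card_le_mul_card_image (f := fun c : Fin n → ℕ => Function.update c i 0)
      (Ω.filter (fun c => P c v)) (rothNumberNat b) (by
        intro c' _
        let C : Finset ℕ := ((Ω.filter (fun c => P c v)).filter
          (fun c => Function.update c i 0 = c')).image (fun c => c i)
        have hmemC : ∀ t ∈ C, ∃ c ∈ Ω, P c v ∧ Function.update c i 0 = c' ∧ c i = t := by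
          intro t ht
          obtain ⟨c, hc1, rfl⟩ := Finset.mem_image.1 ht
          obtain ⟨hc2, hc3⟩ := Finset.mem_filter.1 hc1
          obtain ⟨hc4, hc5⟩ := Finset.mem_filter.1 hc2
          exact ⟨c, hc4, hc5, hc3, rfl⟩
        have hCcard : ((Ω.filter (fun c => P c v)).filter
            (fun c => Function.update c i 0 = c')).card = C.card := by
          rw [Finset.card_image_of_injOn]
          intro c1 h1 c2 h2 h12
          have g1 := (Finset.mem_filter.1 (Finset.mem_coe.1 h1)).2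
          have g2 := (Finset.mem_filter.1 (Finset.mem_coe.1 h2)).2
          funext j
          by_cases hj : j = i
          · subst hj; exact h12
          · have := congrFun (g1.trans g2.symm) j
            rwa [Function.update_of_ne hj, Function.update_of_ne hj] at this
        rw [hCcard]
        refine ThreeAPFree.le_rothNumberNat C ?_ ?_ rfl
        · intro t1 ht1 t2 ht2 t3 ht3 hsum
          obtain ⟨c1, k1, p1, u1, rfl⟩ := hmemC t1 ht1
          obtain ⟨c2, k2, p2, u2, rfl⟩ := hmemC t2 ht2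
          obtain ⟨c3, k3, p3, u3, rfl⟩ := hmemC t3 ht3
          have hlt : ∀ c ∈ Ω, val b n (Y c v) 0 < b ^ n := by
            intro c hc
            have := val_lt n (Y c v) 0 (fun i _ => hYB c hc v i)
            simpa using this
          have hoff : ∀ c, Function.update c i 0 = c' → ∀ j, j ≠ i → c j = c' j := by
            intro c hc j hj
            rw [← hc, Function.update_of_ne hj]
          have hl : ∀ c, Function.update c i 0 = c' → (val b n (Y c v) 0 : ℤ) =
              val b n (Y c1 v) 0 + ((c i : ℤ) - c1 i) *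
                dval b n (fun j => if j = i then 1 else 0) := by
            intro c hc
            refine val_lin _ n _ _ _ 0 ?_
            intro j hj
            by_cases hji : j = i
            · subst hji
              simp [Y, hvi']
            · have hne : (⟨j, hj⟩ : Fin n) ≠ i := fun h => hji (congrArg Fin.val h)
              simp [Y, hj, hji, hoff c hc _ hne, hoff c1 u1 _ hne]
          have hs : val b n (Y c1 v) 0 + val b n (Y c3 v) 0 =
              val b n (Y c2 v) 0 + val b n (Y c2 v) 0 := by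
            have e2 := hl c2 u2
            have e3 := hl c3 u3
            have e4 : (c1 i : ℤ) + c3 i = c2 i + c2 i := by exact_mod_cast hsum
            have e5 : (c3 i : ℤ) - c1 i = 2 * ((c2 i : ℤ) - c1 i) := by linarith
            rw [e5] at e3
            have e6 : (val b n (Y c1 v) 0 : ℤ) + val b n (Y c3 v) 0 =
                val b n (Y c2 v) 0 + val b n (Y c2 v) 0 := by
              rw [e2, e3]; ring
            exact_mod_cast e6
          have h12 := hfree (hA _ (hlt c1 k1) p1) (hA _ (hlt c2 k2) p2) (hA _ (hlt c3 k3) p3) hs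
          have q1 := val_digit hb0 n (Y c1 v) 0 (fun i _ => hYB c1 k1 v i) i i.2
          have q2 := val_digit hb0 n (Y c2 v) 0 (fun i _ => hYB c2 k2 v i) i i.2
          rw [h12, q2] at q1
          simpa [Y, hvi'] using q1.symm
        · intro t ht
          obtain ⟨c, k1, -, -, rfl⟩ := hmemC t ht
          exact hc c k1 i)
    refine h1.trans (Nat.mul_le_mul_left _ ?_)
    have h2 : ((Ω.filter (fun c => P c v)).image (fun c : Fin n → ℕ => Function.update c i 0)) ⊆
        Fintype.piFinset (fun j => if j = i then ({0} : Finset ℕ)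
          else (Finset.range b).erase (a j)) := by
      intro c' hc'
      obtain ⟨c, hc1, rfl⟩ := Finset.mem_image.1 hc'
      have hc2 := Fintype.mem_piFinset.1 (Finset.mem_filter.1 hc1).1
      rw [Fintype.mem_piFinset]
      intro j
      by_cases hj : j = i
      · subst hj; simp
      · rw [Function.update_of_ne hj, if_neg hj]
        exact hc2 j
    refine (Finset.card_le_card h2).trans (le_of_eq ?_)
    rw [Fintype.card_piFinset, ← Finset.mul_prod_erase Finset.univ _ (Finset.mem_univ i)]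
    simp only [if_true, Finset.card_singleton, one_mul]
    rw [Finset.prod_congr rfl (g := fun _ => b - 1) (by
      intro j hj
      rw [if_neg (Finset.ne_of_mem_erase hj)]
      exact hcard1 _), Finset.prod_const, Finset.card_erase_of_mem (Finset.mem_univ i),
      Finset.card_univ, Fintype.card_fin]
  have hswap := Finset.sum_card_bipartiteAbove_eq_sum_card_bipartiteBelow (s := Ω)
    (t := Finset.univ.filter (fun v : Fin n → Bool => v ≠ fun _ => false)) P
  have h1 : (2 ^ (n - d) - 1) * (b - 1) ^ n ≤ ∑ c ∈ Ω, (Finset.bipartiteAbove P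
      (Finset.univ.filter (fun v : Fin n → Bool => v ≠ fun _ => false)) c).card := by
    calc (2 ^ (n - d) - 1) * (b - 1) ^ n = ∑ c ∈ Ω, (2 ^ (n - d) - 1) := by
          rw [Finset.sum_const, hΩ, smul_eq_mul, Nat.mul_comm]
      _ ≤ _ := Finset.sum_le_sum (fun c hc => hlow c hc)
  have h2 : ∑ v ∈ Finset.univ.filter (fun v : Fin n → Bool => v ≠ fun _ => false),
      (Finset.bipartiteBelow P Ω v).card ≤ (2 ^ n - 1) * (rothNumberNat b * (b - 1) ^ (n - 1)) := by
    calc _ ≤ ∑ v ∈ Finset.univ.filter (fun v : Fin n → Bool => v ≠ fun _ => false),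
          (rothNumberNat b * (b - 1) ^ (n - 1)) := Finset.sum_le_sum (fun v hv => hup v hv)
      _ = (2 ^ n - 1) * (rothNumberNat b * (b - 1) ^ (n - 1)) := by
          rw [Finset.sum_const, smul_eq_mul]
          congr 1
          rw [Finset.filter_ne', Finset.card_erase_of_mem (Finset.mem_univ _), Finset.card_univ]
          simp
  rw [hswap] at h1
  have h3 := h1.trans h2
  have h4 : (b - 1) ^ n = (b - 1) * (b - 1) ^ (n - 1) := by
    rw [← pow_succ']
    congr 1
    omega
  rw [h4, ← Nat.mul_assoc, ← Nat.mul_assoc] at h3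
  exact Nat.le_of_mul_le_mul_right h3 (pow_pos (by omega) _)

/-- all cases in which no progression-free set contains the support -/
theorem no_free {b d n : ℕ} {f : ℕ → K} (hf : DegreeLE K b d f)
    (hcase : (4 ≤ b ∧ 2 * d < n) ∨ (b = 3 ∧ 3 * d < n) ∨ (b = 2 ∧ 2 * d < n / 2) ∨
      (2 ^ (d + 1) * rothNumberNat b + 1 < b ∧ d < n))
    (hne : ∃ x < b ^ n, f x ≠ 0) {A : Set ℕ} (hA : ∀ y < b ^ n, f y ≠ 0 → y ∈ A) :
    ¬ ThreeAPFree A := by
  obtain ⟨x, hxn, hx⟩ := hne
  rcases hcase with ⟨h1, h2⟩ | ⟨h1, h2⟩ | ⟨h1, h2⟩ | ⟨h1, h2⟩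
  · have h3 := count_blocks hf (m := 1) (n := n) (k := 3) (by omega) one_pos (by omega)
      (by rw [pow_one]; omega) x hxn hx
    rw [Nat.div_one] at h3
    exact not_free (two_le_of_pow h3 (by simpa using h2)) hA
  · obtain ⟨x, -, -, h3⟩ := count_few hf (n := n) (k := 3) (by omega) (by omega) ⟨x, hxn, hx⟩
    exact not_free (two_le_of_pow h3 h2) hA
  · subst h1
    have h3 := count_blocks hf (m := 2) (n := n) (k := 3) (by omega) two_pos (by omega)
      (by norm_num) x hxn hx
    exact not_free (two_le_of_pow h3 (by simpa using h2)) hA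
  · intro hfree
    have h3 := roth_count hf (by omega) (by omega) h2.le hxn hx hA hfree
    have h4 : 2 ^ n ≤ (2 ^ (n - d) - 1) * 2 ^ (d + 1) := by
      have h5 : 2 ^ (n - d) * 2 ^ d = 2 ^ n := by
        rw [← pow_add]
        congr 1
        omega
      have h6 : 2 ^ (d + 1) ≤ 2 ^ n := Nat.pow_le_pow_right (by norm_num) h2
      rw [Nat.sub_mul, one_mul, pow_succ, ← Nat.mul_assoc, h5]
      rw [pow_succ] at h6
      omega
    have h7 : 1 ≤ 2 ^ (n - d) - 1 := by
      have : 2 ^ 1 ≤ 2 ^ (n - d) := Nat.pow_le_pow_right (by norm_num) (by omega)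
      omega
    have h8 : (2 ^ n - 1) * rothNumberNat b ≤
        (2 ^ (n - d) - 1) * (2 ^ (d + 1) * rothNumberNat b) := by
      rw [← Nat.mul_assoc]
      exact Nat.mul_le_mul_right _ (by omega)
    have h9 : (2 ^ (n - d) - 1) * (2 ^ (d + 1) * rothNumberNat b + 1) ≤
        (2 ^ (n - d) - 1) * (b - 1) := Nat.mul_le_mul_left _ (by omega)
    rw [Nat.mul_add, mul_one] at h9
    omega

end main

/-! ### An example in base three -/

theorem residues (a a' a'' c c' c'' : ℕ) (ha : a < 3) (ha' : a' < 3) (ha'' : a'' < 3) (hc : c < 3)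
    (hc' : c' < 3) (hc'' : c'' < 3) (h1 : (a + a'') % 3 = (a' + a') % 3)
    (h2 : (c + c'') % 3 = (c' + c') % 3) (q : a = 0 ↔ c ≠ 0) (q' : a' = 0 ↔ c' ≠ 0)
    (q'' : a'' = 0 ↔ c'' ≠ 0) : a = a' ∧ a' = a'' ∧ c = c' ∧ c' = c'' := by
  have e1 : (a = a' ∧ a' = a'') ∨ (a ≠ a' ∧ a' ≠ a'' ∧ a ≠ a'') := by omega
  have e2 : (c = c' ∧ c' = c'') ∨ (c ≠ c' ∧ c' ≠ c'' ∧ c ≠ c'') := by omega
  by_cases z : a = 0 <;> by_cases z' : a' = 0 <;> by_cases z'' : a'' = 0 <;>
    by_cases w : c = 0 <;> by_cases w' : c' = 0 <;> by_cases w'' : c'' = 0 <;>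
    first
      | exact absurd w (q.1 z)
      | exact absurd w' (q'.1 z')
      | exact absurd w'' (q''.1 z'')
      | exact absurd (q.2 w) z
      | exact absurd (q'.2 w') z'
      | exact absurd (q''.2 w'') z''
      | omega

theorem pair_free : ∀ (m x x' x'' y y' y'' : ℕ), x < 3 ^ m → x' < 3 ^ m → x'' < 3 ^ m →
    y < 3 ^ m → y' < 3 ^ m → y'' < 3 ^ m → x + x'' = x' + x' → y + y'' = y' + y' →
    (∀ j < m, x / 3 ^ j % 3 = 0 ↔ y / 3 ^ j % 3 ≠ 0) →
    (∀ j < m, x' / 3 ^ j % 3 = 0 ↔ y' / 3 ^ j % 3 ≠ 0) →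
    (∀ j < m, x'' / 3 ^ j % 3 = 0 ↔ y'' / 3 ^ j % 3 ≠ 0) → x = x' ∧ y = y' := by
  intro m
  induction m with
  | zero =>
    intro x x' x'' y y' y'' h1 h2 h3 h4 h5 h6 _ _ _ _ _
    rw [pow_zero] at *
    omega
  | succ m ih =>
    intro x x' x'' y y' y'' h1 h2 h3 h4 h5 h6 hx hy p p' p''
    rw [pow_succ] at h1 h2 h3 h4 h5 h6
    have q := p 0 (by omega)
    have q' := p' 0 (by omega)
    have q'' := p'' 0 (by omega)
    rw [pow_zero, Nat.div_one, Nat.div_one] at q q' q''
    have key : x % 3 = x' % 3 ∧ x' % 3 = x'' % 3 ∧ y % 3 = y' % 3 ∧ y' % 3 = y'' % 3 :=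
      residues _ _ _ _ _ _ (Nat.mod_lt _ (by norm_num)) (Nat.mod_lt _ (by norm_num))
        (Nat.mod_lt _ (by norm_num)) (Nat.mod_lt _ (by norm_num)) (Nat.mod_lt _ (by norm_num))
        (Nat.mod_lt _ (by norm_num)) (by omega) (by omega) q q' q''
    have hsh : ∀ u v : ℕ, (∀ j < m + 1, u / 3 ^ j % 3 = 0 ↔ v / 3 ^ j % 3 ≠ 0) →
        ∀ j < m, u / 3 / 3 ^ j % 3 = 0 ↔ v / 3 / 3 ^ j % 3 ≠ 0 := by
      intro u v huv j hj
      rw [Nat.div_div_eq_div_mul, Nat.div_div_eq_div_mul, ← pow_succ']
      exact huv (j + 1) (by omega)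
    have h := ih (x / 3) (x' / 3) (x'' / 3) (y / 3) (y' / 3) (y'' / 3) (by omega) (by omega)
      (by omega) (by omega) (by omega) (by omega) (by omega) (by omega) (hsh _ _ p) (hsh _ _ p')
      (hsh _ _ p'')
    omega

/-- The integers below `3 ^ (2 m + 1)` whose digit number `m` is `0` and for which, for all
`j < m`, exactly one of the digits number `j` and `m + 1 + j` is `0`. -/
def Ex (m : ℕ) : Set ℕ :=
  {z | z < 3 ^ (2 * m + 1) ∧ z / 3 ^ m % 3 = 0 ∧
    ∀ j < m, z / 3 ^ j % 3 = 0 ↔ z / 3 ^ (m + 1 + j) % 3 ≠ 0}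

theorem ex_free (m : ℕ) : ThreeAPFree (Ex m) := by
  have hsplit : ∀ z ∈ Ex m, z = z % 3 ^ m + 3 ^ (m + 1) * (z / 3 ^ (m + 1)) ∧
      z / 3 ^ (m + 1) < 3 ^ m ∧
      ∀ j < m, z % 3 ^ m / 3 ^ j % 3 = 0 ↔ z / 3 ^ (m + 1) / 3 ^ j % 3 ≠ 0 := by
    rintro z ⟨h1, h2, h3⟩
    refine ⟨?_, ?_, ?_⟩
    · have e1 : z / 3 ^ (m + 1) = z / 3 ^ m / 3 := by
        rw [Nat.div_div_eq_div_mul, ← pow_succ]
      have e2 : z / 3 ^ m = 3 * (z / 3 ^ m / 3) := by omega
      have e3 := Nat.mod_add_div z (3 ^ m)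
      rw [e1, pow_succ, Nat.mul_assoc, ← e2]
      exact e3.symm
    · rw [Nat.div_lt_iff_lt_mul (by positivity), ← pow_add]
      have : m + (m + 1) = 2 * m + 1 := by ring
      rw [this]
      exact h1
    · intro j hj
      rw [← mod_digit hj z, Nat.div_div_eq_div_mul, ← pow_add]
      exact h3 j hj
  intro z hz z' hz' z'' hz'' hsum
  obtain ⟨e, l, q⟩ := hsplit z hz
  obtain ⟨e', l', q'⟩ := hsplit z' hz'
  obtain ⟨e'', l'', q''⟩ := hsplit z'' hz''
  have r : z % 3 ^ m < 3 ^ m := Nat.mod_lt _ (by positivity)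
  have r' : z' % 3 ^ m < 3 ^ m := Nat.mod_lt _ (by positivity)
  have r'' : z'' % 3 ^ m < 3 ^ m := Nat.mod_lt _ (by positivity)
  generalize z % 3 ^ m = x at *
  generalize z' % 3 ^ m = x' at *
  generalize z'' % 3 ^ m = x'' at *
  generalize z / 3 ^ (m + 1) = y at *
  generalize z' / 3 ^ (m + 1) = y' at *
  generalize z'' / 3 ^ (m + 1) = y'' at *
  have hpow : 3 ^ (m + 1) = 3 * 3 ^ m := by ring
  have hP : 0 < 3 ^ m := by positivity
  have hy : y + y'' = y' + y' := by
    rw [e, e', e''] at hsum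
    have h1 : 3 ^ (m + 1) * (y + y'') + (x + x'') = 3 ^ (m + 1) * (y' + y') + (x' + x') := by
      linarith
    have h2 : x + x'' < 3 ^ (m + 1) := by omega
    have h3 : x' + x' < 3 ^ (m + 1) := by omega
    have h4 : (3 ^ (m + 1) * (y + y'') + (x + x'')) / 3 ^ (m + 1) =
        (3 ^ (m + 1) * (y' + y') + (x' + x')) / 3 ^ (m + 1) := by rw [h1]
    rw [Nat.mul_add_div (by positivity), Nat.mul_add_div (by positivity), Nat.div_eq_of_lt h2,
      Nat.div_eq_of_lt h3] at h4
    omega
  have hx : x + x'' = x' + x' := by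
    rw [e, e', e''] at hsum
    have h1 : 3 ^ (m + 1) * (y + y'') + (x + x'') = 3 ^ (m + 1) * (y' + y') + (x' + x') := by
      linarith
    rw [hy] at h1
    omega
  obtain ⟨h1, h2⟩ := pair_free m x x' x'' y y' y'' r r' r'' l l' l'' hx hy q q' q''
  rw [e, e', h1, h2]

theorem ex_degree (K : Type) [Field K] (m : ℕ) : ∃ f : ℕ → K, DegreeLE K 3 (m + 1) f ∧
    (∃ x < 3 ^ (2 * m + 1), f x ≠ 0) ∧ ThreeAPFree {x | x < 3 ^ (2 * m + 1) ∧ f x ≠ 0} := by
  classical
  let G : (ℕ → ℕ) → K := fun u => (if u m = 0 then (1 : K) else 0) *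
    ∏ j ∈ Finset.range m, ((if u j = 0 then (1 : K) else 0) -
      (if u (m + 1 + j) = 0 then (1 : K) else 0))
  have hG : LD.Deg K (m + 1) G := by
    have h1 : LD.Deg K (∑ _j ∈ Finset.range m, 1) (fun u : ℕ → ℕ => ∏ j ∈ Finset.range m,
        ((if u j = 0 then (1 : K) else 0) - (if u (m + 1 + j) = 0 then (1 : K) else 0))) := by
      refine LD.deg_prod (Finset.range m) (fun _ => 1) (fun j (u : ℕ → ℕ) =>
        (if u j = 0 then (1 : K) else 0) - (if u (m + 1 + j) = 0 then (1 : K) else 0)) ?_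
      intro j _
      refine LD.deg_sub ?_ ?_
      · refine LD.deg_of_dep (T := {j}) (by simp) ?_
        intro x y h
        simp only [h _ (Finset.mem_singleton_self _)]
      · refine LD.deg_of_dep (T := {m + 1 + j}) (by simp) ?_
        intro x y h
        simp only [h _ (Finset.mem_singleton_self _)]
    have h2 : LD.Deg K 1 (fun u : ℕ → ℕ => if u m = 0 then (1 : K) else 0) := by
      refine LD.deg_of_dep (T := {m}) (by simp) ?_
      intro x y h
      simp only [h _ (Finset.mem_singleton_self _)]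
    have h3 := LD.deg_mul h2 h1
    rw [Finset.sum_const, Finset.card_range, smul_eq_mul, mul_one, Nat.add_comm] at h3
    exact h3
  have hsupp : ∀ z, G (fun i => z / 3 ^ i % 3) ≠ 0 ↔ (z / 3 ^ m % 3 = 0 ∧
      ∀ j < m, z / 3 ^ j % 3 = 0 ↔ z / 3 ^ (m + 1 + j) % 3 ≠ 0) := by
    intro z
    simp only [G]
    rw [mul_ne_zero_iff, Finset.prod_ne_zero_iff]
    refine and_congr ?_ ?_
    · by_cases h : z / 3 ^ m % 3 = 0 <;> simp [h]
    · refine forall_congr' (fun j => ?_)
      rw [Finset.mem_range]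
      refine imp_congr_right (fun _ => ?_)
      by_cases h1 : z / 3 ^ j % 3 = 0 <;> by_cases h2 : z / 3 ^ (m + 1 + j) % 3 = 0 <;>
        simp [h1, h2]
  refine ⟨_, of_lift hG, ?_, ?_⟩
  · have hY : ∀ i < 2 * m + 1, (fun i => if m < i then 1 else 0) i < 3 := by
      intro i _
      simp only
      split_ifs <;> omega
    refine ⟨val 3 (2 * m + 1) (fun i => if m < i then 1 else 0) 0, ?_, ?_⟩
    · have := val_lt (2 * m + 1) (fun i => if m < i then 1 else 0) 0 hY
      simpa using this
    · have hd := val_digit (by norm_num) (2 * m + 1) (fun i => if m < i then 1 else 0) 0 hY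
      rw [hsupp]
      refine ⟨?_, fun j hj => ?_⟩
      · rw [hd m (by omega)]; simp
      · rw [hd j (by omega), hd (m + 1 + j) (by omega)]
        simp
        omega
  · have e : {x | x < 3 ^ (2 * m + 1) ∧ G (fun i => x / 3 ^ i % 3) ≠ 0} = Ex m := by
      ext z
      show (z < 3 ^ (2 * m + 1) ∧ G (fun i => z / 3 ^ i % 3) ≠ 0) ↔ _
      rw [hsupp]
      rfl
    rw [e]
    exact ex_free m

/-- Roth's theorem, as in Mathlib. -/
theorem large_base (d : ℕ) : ∃ b₀ : ℕ, ∀ b ≥ b₀, 2 ^ (d + 1) * rothNumberNat b + 1 < b := by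
  have h1 := rothNumberNat_isLittleO_id
  have hc : (0 : ℝ) < 1 / 2 ^ (d + 2) := by positivity
  have h2 := (h1.bound hc).and (Filter.eventually_gt_atTop 2)
  obtain ⟨b₀, hb₀⟩ := Filter.eventually_atTop.1 h2
  refine ⟨b₀, fun b hb => ?_⟩
  obtain ⟨h3, h4⟩ := hb₀ b hb
  rw [Real.norm_of_nonneg (Nat.cast_nonneg _), Real.norm_of_nonneg (Nat.cast_nonneg _)] at h3
  have h5 : (2 : ℝ) ^ (d + 1) * rothNumberNat b ≤ b / 2 := by
    calc (2 : ℝ) ^ (d + 1) * rothNumberNat b ≤ 2 ^ (d + 1) * (1 / 2 ^ (d + 2) * b) :=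
          mul_le_mul_of_nonneg_left h3 (by positivity)
      _ = b / 2 := by
          rw [pow_succ 2 (d + 1)]
          field_simp
  have h6 : (2 : ℝ) < b := by exact_mod_cast h4
  have h7 : ((2 ^ (d + 1) * rothNumberNat b + 1 : ℕ) : ℝ) < b := by
    push_cast
    linarith
  exact_mod_cast h7

/-- **Digit degrees and progressions.** Let `K` be a field and let `f` be a function on the
nonnegative integers, with values in `K`, of digit degree at most `d` in base `b`.
(1) Let `m ≥ 1`, `k ≥ 2`, `b ≥ 2` and `b ^ m ≥ 2 k - 2`. If `x < b ^ n` and `f x ≠ 0`, then there are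
at least `2 ^ (⌊n / m⌋ - (k - 1) d)` integers `D` such that `x, x + D, …, x + (k - 1) D` lie in
`[0, b ^ n)` and `f` does not vanish at them.
(2) If `2 ≤ k ≤ b` and `f` does not vanish identically on `[0, b ^ n)`, then for some `x` with
`f x ≠ 0` there are at least `2 ^ (n - k d)` such `D`.
(3) No set without three-term progressions contains all `y < b ^ n` with `f y ≠ 0`, if there are
such `y` and one of the following holds: `b ≥ 4` and `2 d < n`; `b = 3` and `3 d < n`; `b = 2` and
`2 d < ⌊n / 2⌋`; `2 ^ (d + 1) r_3(b) + 1 < b` and `d < n` (`r_3(b)` is Mathlib's `rothNumberNat b`).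
(4) So for every `d` and all `b ≥ b₀(d)`, for every `n`: no nonzero function on `[0, b ^ n)` of digit
degree at most `d` has a support without three-term progressions if and only if `d < n`.
(5) In base `3`, for `n = 2 m + 1` some nonzero function on `[0, 3 ^ n)` of digit degree at most
`m + 1` has a support without three-term progressions.
(6) Let `K` have `q` elements, `b ≥ 4` and let `P i` have digit degree at most `d i`, with
`2 (q - 1) ∑ d i < n`. If the `P i` have a common zero in `[0, b ^ n)`, then their common zeros in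
`[0, b ^ n)` contain a nontrivial three-term progression. -/
theorem result :
    -- (1)
    (∀ (K : Type) [Field K] (b d : ℕ) (f : ℕ → K), DegreeLE K b d f → ∀ m n k : ℕ, 1 ≤ m → 2 ≤ k →
      2 ≤ b → 2 * k - 2 ≤ b ^ m → ∀ x < b ^ n, f x ≠ 0 →
        2 ^ (n / m) ≤ 2 ^ ((k - 1) * d) * Set.ncard (apDiffs k (b ^ n) f x)) ∧
    -- (2)
    (∀ (K : Type) [Field K] (b d : ℕ) (f : ℕ → K), DegreeLE K b d f → ∀ n k : ℕ, 2 ≤ k → k ≤ b →
      (∃ x < b ^ n, f x ≠ 0) → ∃ x < b ^ n, f x ≠ 0 ∧
        2 ^ n ≤ 2 ^ (k * d) * Set.ncard (apDiffs k (b ^ n) f x)) ∧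
    -- (3)
    (∀ (K : Type) [Field K] (b d n : ℕ) (f : ℕ → K), DegreeLE K b d f →
      ((4 ≤ b ∧ 2 * d < n) ∨ (b = 3 ∧ 3 * d < n) ∨ (b = 2 ∧ 2 * d < n / 2) ∨
        (2 ^ (d + 1) * rothNumberNat b + 1 < b ∧ d < n)) →
      (∃ x < b ^ n, f x ≠ 0) → ∀ A : Set ℕ, (∀ y < b ^ n, f y ≠ 0 → y ∈ A) → ¬ ThreeAPFree A) ∧
    -- (4)
    (∀ d : ℕ, ∃ b₀ : ℕ, ∀ b ≥ b₀, ∀ (n : ℕ) (K : Type) [Field K],
      (∀ f : ℕ → K, DegreeLE K b d f → (∃ x < b ^ n, f x ≠ 0) →
        ¬ ThreeAPFree {x | x < b ^ n ∧ f x ≠ 0}) ↔ d < n) ∧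
    -- (5)
    (∀ (K : Type) [Field K] (m : ℕ), ∃ f : ℕ → K, DegreeLE K 3 (m + 1) f ∧
      (∃ x < 3 ^ (2 * m + 1), f x ≠ 0) ∧ ThreeAPFree {x | x < 3 ^ (2 * m + 1) ∧ f x ≠ 0}) ∧
    -- (6)
    (∀ (K : Type) [Field K] [Fintype K] (b n s : ℕ) (d : Fin s → ℕ) (P : Fin s → ℕ → K),
      (∀ i, DegreeLE K b (d i) (P i)) → 4 ≤ b → 2 * (Fintype.card K - 1) * ∑ i, d i < n →
      (∃ x < b ^ n, ∀ i, P i x = 0) → ¬ ThreeAPFree {x | x < b ^ n ∧ ∀ i, P i x = 0}) := by
  classical
  refine ⟨?_, ?_, ?_, ?_, fun K _ m => ex_degree K m, ?_⟩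
  · intro K _ b d f hf m n k hm hk hb hB x hxn hx
    exact count_blocks hf (by omega) hm hk (by omega) x hxn hx
  · intro K _ b d f hf n k hk hkb hne
    exact count_few hf hk hkb hne
  · intro K _ b d n f hf hcase hne A hA
    exact no_free hf hcase hne hA
  · intro d
    obtain ⟨b₀, hb₀⟩ := large_base d
    refine ⟨b₀, fun b hb n K _ => ⟨fun h => ?_, fun hn f hf hne => ?_⟩⟩
    · by_contra hdn
      have hb1 : 0 < b := by
        have := hb₀ b hb
        omega
      have hdeg : LD.Deg K d (fun u : ℕ → ℕ => if ∀ i < n, u i = 0 then (1 : K) else 0) := by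
        refine LD.deg_of_dep (T := Finset.range n) (by rw [Finset.card_range]; omega) ?_
        intro u v huv
        have : (∀ i < n, u i = 0) ↔ ∀ i < n, v i = 0 :=
          forall_congr' (fun i => imp_congr_right (fun hi => by
            rw [huv i (Finset.mem_range.2 hi)]))
        simp only [this]
      refine h _ (of_lift hdeg) ⟨0, pow_pos hb1 n, by simp⟩ ?_
      have hz : ∀ x : ℕ, x < b ^ n → (if ∀ i < n, x / b ^ i % b = 0 then (1 : K) else 0) ≠ 0 →
          x = 0 := by
        intro x hx hx2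
        have h1 : ∀ i < n, x / b ^ i % b = 0 := by
          by_contra hc
          exact hx2 (if_neg hc)
        have h2 := val_lin (B := b) 0 n (fun _ => 0) (fun i => x / b ^ i % b) (fun _ => 0) 0 (by
          intro i hi
          simp [h1 i hi])
        have h3 := val_self (B := b) n x
        rw [Nat.div_eq_of_lt hx] at h3
        rw [h3, zero_mul, add_zero] at h2
        have h4 : ∀ m, val b m (fun _ => 0) 0 = 0 := by
          intro m
          induction m with
          | zero => rfl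
          | succ m ih => rw [val, ih]; simp
        rw [h4] at h2
        exact_mod_cast h2
      intro x hx y hy z hz' _
      rw [hz x hx.1 hx.2, hz y hy.1 hy.2]
    · exact no_free hf (Or.inr (Or.inr (Or.inr ⟨hb₀ b hb, hn⟩))) hne (fun y h1 h2 => ⟨h1, h2⟩)
  · intro K _ _ b n s d P hP hb hsum hne
    choose G hG hPG using fun i => exists_lift (hP i)
    have hq : 1 < Fintype.card K := Fintype.one_lt_card
    have hdeg : LD.Deg K (∑ i, (Fintype.card K - 1) * d i)
        (fun u : ℕ → ℕ => ∏ i, (1 - G i u ^ (Fintype.card K - 1))) :=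
      LD.deg_prod Finset.univ (fun i => (Fintype.card K - 1) * d i)
        (fun i u => 1 - G i u ^ (Fintype.card K - 1))
        (fun i _ => LD.deg_sub (LD.deg_const _ _) (LD.deg_pow (hG i) _))
    have hF := of_lift (b := b) hdeg
    have hsupp : ∀ x, (∏ i, (1 - G i (fun t => x / b ^ t % b) ^ (Fintype.card K - 1))) ≠ 0 ↔
        ∀ i, P i x = 0 := by
      intro x
      simp only [← hPG]
      constructor
      · intro hp i
        by_contra hne
        apply hp
        refine Finset.prod_eq_zero (Finset.mem_univ i) ?_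
        rw [FiniteField.pow_card_sub_one_eq_one _ hne, sub_self]
      · intro hp
        have : ∏ i, (1 - P i x ^ (Fintype.card K - 1)) = (1 : K) :=
          Finset.prod_eq_one (fun i _ => by rw [hp i, zero_pow (by omega), sub_zero])
        rw [this]
        exact one_ne_zero
    refine no_free (n := n) hF (Or.inl ⟨hb, ?_⟩) ?_ ?_
    · rw [← Finset.mul_sum, ← Nat.mul_assoc]
      exact hsum
    · obtain ⟨x, hx1, hx2⟩ := hne
      exact ⟨x, hx1, (hsupp x).2 hx2⟩
    · intro y hy hy2
      exact ⟨hy, (hsupp y).1 hy2⟩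

end Pool.Agent.Results.MP_0f71ae_nt.DigitDegree
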