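import Pool.Agent.X222.RW.Digits

set_option autoImplicit false

/-!
# Progression-free sets of integers inside sets given by programs which read the digits

Let `N = b ^ n`, and let `F ⊆ [0, N)` be decided by a nondeterministic branching program of bounded
width which reads the digits in base `b`, in boundedly many passes, or with linear length in any
order. All progression-free sets have small density relative to `F`, also if `F` is very sparse; for
programs which read the digits from the lowest to the highest in each pass the relative density is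
at most a constant times `r_3(b ^ m) / b ^ m` as long as `F` has more than `N / 2 ^ (n / m)` elements.

Proof. The levels are divided into intervals, and there are many disjoint blocks of `m` digits such
that each interval meets at most one block and each block is met by boundedly many intervals. The
program depends on the digits in a block only through the relations between the nodes at the ends of
these intervals, so the contents of a block fall into boundedly many classes. Words for which half of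
the blocks have a content in a small class are rare. In a large class, a progression-free set has
small density, by the definition of `r_3` or by the density Hales-Jewett theorem.
-/

namespace Pool.Agent.Results.MP_0f71ae_nt.RelativeBoundedWidth

open Finset Pool.Agent.X222.RW

/-- `A` contains no progression `a, a + d, …, a + (k - 1) d` with `d > 0`. -/
def APFree (k : ℕ) (A : Finset ℕ) : Prop := ∀ a d : ℕ, 0 < d → ¬ ∀ i < k, a + i * d ∈ A

/-- `F` is the set of all `a < b ^ n` such that the program `M` accepts the word of the digits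
`a / b ^ i % b` of `a` in base `b`, `i = 0, …, n - 1`. -/
def Decides {n w : ℕ} (M : Program ℕ n w) (b : ℕ) (F : Finset ℕ) : Prop :=
  ∀ a, a ∈ F ↔ a < b ^ n ∧ M.Accepts fun i => a / b ^ (i : ℕ) % b

/-- `F` is decided by a nondeterministic branching program of width `w` which reads the `n` digits
in `q` passes, from the lowest to the highest digit in each pass. -/
def Upwards (b n w q : ℕ) (F : Finset ℕ) : Prop :=
  ∃ M : Program ℕ n w, M.levels = q * n ∧ (∀ t < q * n, ∀ v, (M.query t v : ℕ) = t % n) ∧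
    Decides M b F

/-- `F` is decided by a nondeterministic branching program of width `w` which reads the `n` digits
in `q` passes, each in the same order `σ`, which is arbitrary. -/
def InPasses (b n w q : ℕ) (F : Finset ℕ) : Prop :=
  ∃ (M : Program ℕ n w) (σ : Fin n ≃ Fin n), M.levels = q * n ∧
    (∀ t < q * n, ∀ v, (σ (M.query t v) : ℕ) = t % n) ∧ Decides M b F

/-- `F` is decided by a nondeterministic branching program of width `w` with at most `q n` steps,
whose nodes read arbitrary digits. -/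
def InSteps (b n w q : ℕ) (F : Finset ℕ) : Prop :=
  ∃ M : Program ℕ n w, M.levels ≤ q * n ∧ Decides M b F

/-- the program over the alphabet `Fin b` -/
def fp {n w : ℕ} (b : ℕ) (M : Program ℕ n w) : Program (Fin b) n w where
  levels := M.levels
  query := M.query
  start := M.start
  step t v g v' := M.step t v g v'
  accept := M.accept

theorem mem_fp {b n w : ℕ} {M : Program ℕ n w} {F : Finset ℕ} (h : Decides M b F)
    (x : Fin n → Fin b) : x ∈ Digits.wrd b n F ↔ (fp b M).Accepts x := by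
  rw [Digits.mem_wrd, h]
  have h1 : (fun i : Fin n => (∑ i, (x i : ℕ) * b ^ (i : ℕ)) / b ^ (i : ℕ) % b) =
      fun i => (x i : ℕ) := by
    funext i
    exact Digits.digit_val x i
  rw [h1]
  constructor
  · rintro ⟨_, h2⟩
    exact h2
  · intro h2
    exact ⟨Digits.val_lt x, h2⟩

theorem lt_of_decides {b n w : ℕ} {M : Program ℕ n w} {F : Finset ℕ} (h : Decides M b F) :
    ∀ a ∈ F, a < b ^ n := fun a ha => ((h a).1 ha).1

theorem wrd_inter {b n : ℕ} (A F : Finset ℕ) :
    Digits.wrd b n A ∩ Digits.wrd b n F = Digits.wrd b n (A ∩ F) := by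
  ext x
  rw [mem_inter, Digits.mem_wrd, Digits.mem_wrd, Digits.mem_wrd, mem_inter]

theorem up_bound {b k w q m R : ℕ} (hb : 1 ≤ b) (hm : 1 ≤ m)
    (hR : ∀ B ⊆ range (b ^ m), APFree k B → B.card ≤ R) (n : ℕ) (A F : Finset ℕ)
    (hA : APFree k A) (hF : Upwards b n w q F) :
    ((A ∩ F).card : ℝ) ≤ 32 * 2 ^ (w * w * q) * (R / b ^ m) * F.card + b ^ n / 2 ^ (n / m) := by
  obtain ⟨M, hL, hM, hF⟩ := hF
  have : Nonempty (Fin b) := ⟨⟨0, hb⟩⟩
  have h1 := pass_bound' (α := Fin b) hm q (fp b M) (Equiv.refl _) hL hM (Digits.wrd b n A)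
    (Digits.wrd b n F) (R := R) (fun j u => Digits.block_count hm hR hA j u) (mem_fp hF)
  rw [wrd_inter, Digits.card_wrd (lt_of_decides hF),
    Digits.card_wrd (fun a ha => lt_of_decides hF a (mem_inter.1 ha).2), Fintype.card_fin] at h1
  push_cast at h1
  exact h1

theorem relative {b k : ℕ} (hb : 1 ≤ b) (hk : k ≤ b) (w q : ℕ) (hw : 1 ≤ w) (hq : 1 ≤ q) (δ : ℝ)
    (hδ : 0 < δ) : ∃ C : ℕ, ∀ (n t : ℕ) (A F : Finset ℕ), APFree k A →
      (C * t ≤ n ∧ InPasses b n w q F) ∨ (C * t ^ (2 * w * q) ≤ n ∧ InSteps b n w q F) →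
      ((A ∩ F).card : ℝ) ≤ δ * F.card + b ^ n / 2 ^ t := by
  have : Nonempty (Fin b) := ⟨⟨0, hb⟩⟩
  obtain ⟨N, hN⟩ : ∃ N : ℕ, N = 2 ^ (w * w * (2 * w * q)) := ⟨_, rfl⟩
  have hN0 : (0 : ℝ) < N := by
    have : 0 < N := by rw [hN]; positivity
    exact_mod_cast this
  obtain ⟨m, R, hm, hR, hRδ⟩ := Digits.dens hb hk (δ := δ / (32 * N)) (by positivity)
  refine ⟨cst m w q, fun n t A F hA hF => ?_⟩
  have hlt : ∀ a ∈ F, a < b ^ n := by
    rcases hF with ⟨_, M, σ, _, _, hF⟩ | ⟨_, M, _, hF⟩
    · exact lt_of_decides hF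
    · exact lt_of_decides hF
  have h1 := Pool.Agent.X222.RW.relative (α := Fin b) hw hq hm (δ := δ) (R := R) (n := n) (t := t)
    (by
      rw [← hN]
      have h3 := mul_le_mul_of_nonneg_left hRδ (by positivity : (0 : ℝ) ≤ 32 * N)
      have h4 : 32 * (N : ℝ) * (δ / (32 * N)) = δ := by field_simp
      linarith) (Digits.wrd b n A) (Digits.wrd b n F) (Digits.free_thin hR hA)
    (by
      rcases hF with ⟨h, M, σ, hL, hM, hF⟩ | ⟨h, M, hL, hF⟩
      · exact Or.inl ⟨h, fp b M, σ, hL, hM, mem_fp hF⟩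
      · exact Or.inr ⟨h, fp b M, hL, mem_fp hF⟩)
  rw [wrd_inter, Digits.card_wrd hlt,
    Digits.card_wrd (fun a ha => hlt a (mem_inter.1 ha).2), Fintype.card_fin] at h1
  exact h1

theorem union_bound {n T b : ℕ} {t : ℕ} (A : Finset ℕ) (F : Fin T → Finset ℕ)
    (hAF : ∀ a, a ∈ A ↔ ∃ i, a ∈ F i)
    (h : ∀ i, (((A ∩ F i).card : ℕ) : ℝ) ≤ 1 / 2 * (F i).card + (b : ℝ) ^ n / 2 ^ t) :
    (A.card : ℝ) ≤ 2 * T * ((b : ℝ) ^ n / 2 ^ t) := by
  have h2 : ∀ i, ((F i).card : ℝ) ≤ 2 * ((b : ℝ) ^ n / 2 ^ t) := by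
    intro i
    have h3 : A ∩ F i = F i := by
      rw [inter_eq_right]
      intro x hx
      exact (hAF x).2 ⟨i, hx⟩
    have h4 := h i
    rw [h3] at h4
    linarith
  have h3 : A ⊆ univ.biUnion F := by
    intro x hx
    obtain ⟨i, hi⟩ := (hAF x).1 hx
    exact mem_biUnion.2 ⟨i, mem_univ _, hi⟩
  calc (A.card : ℝ) ≤ ((univ.biUnion F).card : ℝ) := by exact_mod_cast card_le_card h3
    _ ≤ ((∑ i, (F i).card : ℕ) : ℝ) := by exact_mod_cast card_biUnion_le
    _ = ∑ i, ((F i).card : ℝ) := by push_cast; rfl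
    _ ≤ ∑ _i : Fin T, 2 * ((b : ℝ) ^ n / 2 ^ t) := sum_le_sum fun i _ => h2 i
    _ = _ := by rw [sum_const, card_univ, Fintype.card_fin, nsmul_eq_mul]; ring

theorem apfree_of_three {A : Finset ℕ} (hA : ThreeAPFree (A : Set ℕ)) : APFree 3 A := by
  intro a d hd h
  have h0 := h 0 (by norm_num)
  have h1 := h 1 (by norm_num)
  have h2 := h 2 (by norm_num)
  have := hA (mem_coe.2 h0) (mem_coe.2 h1) (mem_coe.2 h2) (by ring)
  omega

/-- **Theorem.** Let `b, w, q ≥ 1`.
(1) Let `m ≥ 1`, let `k` be arbitrary, and suppose that the subsets of `[0, b ^ m)` without progressions of length `k` have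
at most `R` elements (`R = r_k(b ^ m)`). For all `n`, all `A` without such progressions and all `F`
which are decided by a program of width `w` in `q` upwards passes,
`|A ∩ F| ≤ 32 * 2 ^ (w² q) (R / b ^ m) |F| + b ^ n / 2 ^ (n / m)`.
(2) Let `k ≤ b`. For every `δ > 0` there is `C` such that for all `n`, `t`, all `A` without
progressions of length `k` and all `F`: if `C t ≤ n` and `F` is decided by a program of width `w` in `q` passes, or if
`C t ^ (2 w q) ≤ n` and `F` is decided by a program of width `w` with at most `q n` steps, then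
`|A ∩ F| ≤ δ |F| + b ^ n / 2 ^ t`.
(3) Let `k ≤ b`. There is `C` such that for all `n`, `t`: if `A` contains no progression of length
`k` and is the union of `T` sets, each of them as in (2), then `|A| ≤ 2 T b ^ n / 2 ^ t`.
(4) Let `b ≥ 3`. For every `K` there are `c > 0` and `n₀` such that for all `n ≥ n₀`: if `A` contains
no three-term progression, has `r_3(b ^ n)` or at least `b ^ n exp (- K √n)` elements, and is the
union of `T` sets decided by programs of width `w` in `q` passes, then `T ≥ 2 ^ (c n)`. -/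
theorem result (b w q : ℕ) (hb : 1 ≤ b) (hw : 1 ≤ w) (hq : 1 ≤ q) :
    (∀ k m R : ℕ, 1 ≤ m → (∀ B ⊆ range (b ^ m), APFree k B → B.card ≤ R) →
      ∀ (n : ℕ) (A F : Finset ℕ), APFree k A → Upwards b n w q F →
        ((A ∩ F).card : ℝ) ≤
          32 * 2 ^ (w * w * q) * (R / b ^ m) * F.card + b ^ n / 2 ^ (n / m)) ∧
    (∀ k : ℕ, k ≤ b → ∀ δ : ℝ, 0 < δ → ∃ C : ℕ, ∀ (n t : ℕ) (A F : Finset ℕ), APFree k A →
      (C * t ≤ n ∧ InPasses b n w q F) ∨ (C * t ^ (2 * w * q) ≤ n ∧ InSteps b n w q F) →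
        ((A ∩ F).card : ℝ) ≤ δ * F.card + b ^ n / 2 ^ t) ∧
    (∀ k : ℕ, k ≤ b → ∃ C : ℕ, ∀ (n t T : ℕ) (A : Finset ℕ) (F : Fin T → Finset ℕ), APFree k A →
      (∀ a, a ∈ A ↔ ∃ i, a ∈ F i) →
      (∀ i, (C * t ≤ n ∧ InPasses b n w q (F i)) ∨
        (C * t ^ (2 * w * q) ≤ n ∧ InSteps b n w q (F i))) →
        (A.card : ℝ) ≤ 2 * T * ((b : ℝ) ^ n / 2 ^ t)) ∧
    (3 ≤ b → ∀ K : ℝ, ∃ c : ℝ, 0 < c ∧ ∃ n₀ : ℕ, ∀ n ≥ n₀, ∀ (T : ℕ) (A : Finset ℕ)
      (F : Fin T → Finset ℕ), ThreeAPFree (A : Set ℕ) →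
      (A.card = rothNumberNat (b ^ n) ∨ (b : ℝ) ^ n * Real.exp (-(K * √n)) ≤ A.card) →
      (∀ a, a ∈ A ↔ ∃ i, a ∈ F i) → (∀ i, InPasses b n w q (F i)) →
        (2 : ℝ) ^ (c * n) ≤ T) := by
  have h3 : ∀ k : ℕ, k ≤ b → ∃ C : ℕ, ∀ (n t T : ℕ) (A : Finset ℕ) (F : Fin T → Finset ℕ),
      APFree k A → (∀ a, a ∈ A ↔ ∃ i, a ∈ F i) →
      (∀ i, (C * t ≤ n ∧ InPasses b n w q (F i)) ∨
        (C * t ^ (2 * w * q) ≤ n ∧ InSteps b n w q (F i))) →
        (A.card : ℝ) ≤ 2 * T * ((b : ℝ) ^ n / 2 ^ t) := by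
    intro k hk
    obtain ⟨C, hC⟩ := relative hb hk w q hw hq (1 / 2) (by norm_num)
    exact ⟨C, fun n t T A F hA hAF hF => union_bound A F hAF fun i => hC n t A (F i) hA (hF i)⟩
  refine ⟨fun k m R hm hR n A F hA hF => up_bound hb hm hR n A F hA hF,
    fun k hk δ hδ => relative hb hk w q hw hq δ hδ, h3, ?_⟩
  intro hb3 K
  obtain ⟨C0, hC0⟩ := h3 3 hb3
  set C : ℕ := C0 + 1 with hC
  have hCR : (0 : ℝ) < C := by exact_mod_cast (by omega : 0 < C)
  have hb0 : (0 : ℝ) < b := by exact_mod_cast hb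
  have hlogb : 0 ≤ Real.log b := Real.log_nonneg (by exact_mod_cast hb)
  set K' : ℝ := max K (4 * √(Real.log b)) with hK'
  have hK'0 : 0 ≤ K' := le_trans (by positivity) (le_max_right _ _)
  have hlog2 : 0 < Real.log 2 := Real.log_pos (by norm_num)
  obtain ⟨n₀, hn₀⟩ := exists_nat_ge ((2 * C * (2 * Real.log 2 + K') / Real.log 2 + 1) ^ 2)
  refine ⟨1 / (2 * C), by positivity, n₀, fun n hn T A F hA hcard hAF hF => ?_⟩
  have hbn : (0 : ℝ) < (b : ℝ) ^ n := by positivity
  have hn1 : (2 * C * (2 * Real.log 2 + K') / Real.log 2 + 1) ^ 2 ≤ (n : ℝ) :=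
    hn₀.trans (by exact_mod_cast hn)
  have hsq : 2 * C * (2 * Real.log 2 + K') / Real.log 2 + 1 ≤ √n := Real.le_sqrt_of_sq_le hn1
  have hnn : √(n : ℝ) * √n = n := Real.mul_self_sqrt (Nat.cast_nonneg n)
  have hs0 : 0 ≤ 2 * C * (2 * Real.log 2 + K') / Real.log 2 := by positivity
  have hs1 : 1 ≤ √(n : ℝ) := by linarith
  -- the lower bound for `|A|`
  have hlow : (b : ℝ) ^ n * Real.exp (-(K' * √n)) ≤ A.card := by
    rcases hcard with h | h
    · rw [h]
      refine le_trans ?_ (Behrend.roth_lower_bound (N := b ^ n))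
      push_cast
      refine mul_le_mul_of_nonneg_left (Real.exp_le_exp.2 ?_) hbn.le
      rw [Real.log_pow, Real.sqrt_mul (Nat.cast_nonneg n)]
      have h4 : 4 * √(Real.log b) ≤ K' := le_max_right _ _
      have h5 := mul_le_mul_of_nonneg_right h4 (Real.sqrt_nonneg (n : ℝ))
      nlinarith
    · refine le_trans (mul_le_mul_of_nonneg_left (Real.exp_le_exp.2 ?_) hbn.le) h
      have h5 := mul_le_mul_of_nonneg_right (le_max_left K (4 * √(Real.log b)))
        (Real.sqrt_nonneg (n : ℝ))
      linarith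
  -- the upper bound
  have hup := hC0 n (n / C) T A F (apfree_of_three hA) hAF fun i => Or.inl ⟨by
    have h4 := Nat.div_mul_le_self n C
    have h5 : C0 * (n / C) ≤ C * (n / C) := Nat.mul_le_mul_right _ (by omega)
    rw [mul_comm C] at h5
    omega, hF i⟩
  have h4 : Real.exp (-(K' * √n)) * 2 ^ (n / C) ≤ 2 * T := by
    have h5 := hlow.trans hup
    have h6 : 2 * (T : ℝ) * ((b : ℝ) ^ n / 2 ^ (n / C)) = b ^ n * (2 * T / 2 ^ (n / C)) := by ring
    rw [h6] at h5
    have h7 := le_of_mul_le_mul_left h5 hbn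
    rwa [le_div_iff₀ (by positivity)] at h7
  have h5 : (n : ℝ) / C - 1 ≤ (n / C : ℕ) := by
    have h6 : (n : ℝ) < C * ((n / C : ℕ) + 1) := by
      have h7 := Nat.div_add_mod n C
      have h8 := Nat.mod_lt n (by omega : 0 < C)
      have h9 : n < C * (n / C + 1) := by
        rw [mul_add, mul_one]
        omega
      exact_mod_cast h9
    have h7 : (n : ℝ) / C < (n / C : ℕ) + 1 := by
      rw [div_lt_iff₀ hCR]
      linarith
    linarith
  have h6 : Real.exp (Real.log 2 * (n / C - 1)) ≤ 2 ^ (n / C) := by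
    rw [← Real.rpow_natCast, Real.rpow_def_of_pos (by norm_num : (0 : ℝ) < 2)]
    exact Real.exp_le_exp.2 (mul_le_mul_of_nonneg_left h5 hlog2.le)
  have h7 : Real.exp (-(K' * √n)) * Real.exp (Real.log 2 * (n / C - 1)) ≤ 2 * T :=
    (mul_le_mul_of_nonneg_left h6 (Real.exp_pos _).le).trans h4
  rw [← Real.exp_add] at h7
  have h8 : Real.exp (Real.log 2 * (1 / (2 * C) * n) + Real.log 2) ≤ 2 * T := by
    refine (Real.exp_le_exp.2 ?_).trans h7
    have h9 : (2 * Real.log 2 + K') * √n ≤ Real.log 2 * (n / (2 * C)) := by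
      have h10 : 2 * C * (2 * Real.log 2 + K') / Real.log 2 ≤ √n := by linarith
      rw [div_le_iff₀ hlog2] at h10
      have h11 := mul_le_mul_of_nonneg_right h10 (Real.sqrt_nonneg (n : ℝ))
      have h12 : √(n : ℝ) * Real.log 2 * √n = n * Real.log 2 := by
        rw [mul_right_comm, hnn]
      rw [h12] at h11
      rw [mul_div_assoc', le_div_iff₀ (by positivity)]
      linarith
    have h13 : 2 * Real.log 2 ≤ 2 * Real.log 2 * √n := by nlinarith
    have h14 : Real.log 2 * ((n : ℝ) / C - 1) =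
        Real.log 2 * (n / (2 * C)) + Real.log 2 * (n / (2 * C)) - Real.log 2 := by
      field_simp
      ring
    have h15 : Real.log 2 * (1 / (2 * C) * n) = Real.log 2 * ((n : ℝ) / (2 * C)) := by ring
    rw [h14, h15]
    linarith
  rw [Real.exp_add, Real.exp_log (by norm_num : (0 : ℝ) < 2)] at h8
  rw [Real.rpow_def_of_pos (by norm_num : (0 : ℝ) < 2)]
  linarith

end Pool.Agent.Results.MP_0f71ae_nt.RelativeBoundedWidth
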