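import Pool.Agent.X79.RF.Main
import Pool.Agent.X222.RW.Digits

set_option autoImplicit false
set_option linter.unusedSectionVars false

/-!
# Progression-free sets of integers inside sets given by small formulas on the digits

Let `N = b ^ n`. If `F ⊆ [0, N)` is decided by a formula with `S` leaves which test digits in base
`b`, then every set without progressions of length `k ≤ b` has relative density at most `δ` in `F`, up
to an additive error `2 N exp (- c n² / (S + n))`. If the indicator function of `F` is a sum of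
functions of at most `c n` digits there is no error term. Consequently no set decided by a formula
with fewer than `c n ^ (3 / 2)` leaves approximates a largest set without three-term progressions
better than the empty set does.

Proof. If the indicator function of `F` has degree at most `t`, then by Parseval's identity `F` has
at most `2 t b |F|` boundary edges. Hence for a suitable block of `m` digits only few elements of
`F` lie in a box (given by these digits) which is not contained in `F`; in the boxes contained in `F`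
the density Hales-Jewett theorem applies. A formula with `S` leaves has degree at most `t ~ n² / S`
on most boxes with about `t` free digits.
-/

namespace Pool.Agent.Results.MP_0f71ae_nt.RelativeFormulas

open Finset Function

/-- `A` contains no progression `a, a + d, …, a + (k - 1) d` with `d > 0`. -/
def APFree (k : ℕ) (A : Finset ℕ) : Prop := ∀ a d : ℕ, 0 < d → ¬ ∀ i < k, a + i * d ∈ A

/-- The box `[0, b)^m` contains no progression `x, x + y, …, x + (k - 1) y` with elements in `T`,
where `y` is a nonzero vector with nonnegative integer coordinates. -/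
def BoxFree {b m : ℕ} (k : ℕ) (T : Finset (Fin m → Fin b)) : Prop :=
  ∀ x y : Fin m → ℕ, (∃ a, 0 < y a) → ¬ ∀ i < k, ∃ c ∈ T, ∀ a, (c a : ℕ) = x a + i * y a

/-- `F ⊆ [0, b ^ n)`, and on `[0, b ^ n)` the indicator function of `F` is a sum of real functions
`h J`, where `J` is a set of at most `t` positions and `h J a` depends only on the digits
`a / b ^ i % b` of `a` in base `b` at the positions `i ∈ J`. -/
def DegreeAtMost (b n t : ℕ) (F : Finset ℕ) : Prop :=
  (∀ a ∈ F, a < b ^ n) ∧ ∃ h : Finset (Fin n) → ℕ → ℝ,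
    (∀ (J : Finset (Fin n)) (a a' : ℕ), (∀ i ∈ J, a / b ^ (i : ℕ) % b = a' / b ^ (i : ℕ) % b) → h J a = h J a') ∧
    ∀ a < b ^ n, (if a ∈ F then (1 : ℝ) else 0) = ∑ J ∈ univ.filter fun J => J.card ≤ t, h J a

/-- Formulas whose leaves are arbitrary tests of a digit. -/
inductive Formula (n : ℕ) : Type
  | test : Fin n → (ℕ → Bool) → Formula n
  | not : Formula n → Formula n
  | and : Formula n → Formula n → Formula n
  | or : Formula n → Formula n → Formula n

/-- the number of leaves -/
def Formula.leaves {n : ℕ} : Formula n → ℕ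
  | .test _ _ => 1
  | .not f => f.leaves
  | .and f g => f.leaves + g.leaves
  | .or f g => f.leaves + g.leaves

/-- the formula accepts the number `a`, whose `i`-th digit in base `b` is `a / b ^ i % b` -/
def Formula.Accepts {n : ℕ} (b : ℕ) : Formula n → ℕ → Prop
  | .test i P, a => P (a / b ^ (i : ℕ) % b) = true
  | .not f, a => ¬ f.Accepts b a
  | .and f g, a => f.Accepts b a ∧ g.Accepts b a
  | .or f g, a => f.Accepts b a ∨ g.Accepts b a

/-- `F` is the set of all `a < b ^ n` which are accepted by some formula with at most `S` leaves. -/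
def Decided (b n S : ℕ) (F : Finset ℕ) : Prop :=
  ∃ φ : Formula n, φ.leaves ≤ S ∧ ∀ a, a ∈ F ↔ a < b ^ n ∧ φ.Accepts b a

open Pool.Agent.H564R2.QF Pool.Agent.X79.RF Pool.Agent.Y607.LP
open Pool.Agent.X222.RW (Thin)
open Pool.Agent.X222.RW.Digits (wrd mem_wrd card_wrd digit_val val_lt free_thin dens)

/-- the formula of the library -/
def Formula.conv {n : ℕ} (b : ℕ) : Formula n → Fml (Fin n × (Fin b → Bool))
  | .test i P => .var (i, fun c => P c)
  | .not f => .neg (f.conv b)
  | .and f g => .and (f.conv b) (g.conv b)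
  | .or f g => .or (f.conv b) (g.conv b)

lemma conv_size {n b : ℕ} (f : Formula n) : (f.conv b).size = f.leaves := by
  induction f with
  | test i P => rfl
  | not f ih => exact ih
  | and f g ih ih' => simp only [Formula.conv, Fml.size, Formula.leaves, ih, ih']
  | or f g ih ih' => simp only [Formula.conv, Fml.size, Formula.leaves, ih, ih']

/-- the number with the given digits -/
def num {b n : ℕ} (x : Fin n → Fin b) : ℕ := ∑ i, (x i : ℕ) * b ^ (i : ℕ)

lemma conv_acc {n b : ℕ} (f : Formula n) (x : Fin n → Fin b) :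
    Accp (f.conv b) x ↔ f.Accepts b (num x) := by
  unfold Accp
  induction f with
  | test i P =>
    have := digit_val x i
    simp only [Formula.conv, Fml.eval, Formula.Accepts, num, this]
  | not f ih => simp [Formula.conv, Fml.eval, Formula.Accepts, ← ih]
  | and f g ih ih' => simp [Formula.conv, Fml.eval, Formula.Accepts, ← ih, ← ih']
  | or f g ih ih' => simp [Formula.conv, Fml.eval, Formula.Accepts, ← ih, ← ih']

lemma wrd_inter {b n : ℕ} (A F : Finset ℕ) : wrd b n A ∩ wrd b n F = wrd b n (A ∩ F) := by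
  ext x
  rw [mem_inter, mem_wrd, mem_wrd, mem_wrd, mem_inter]

lemma degLe (b n t : ℕ) (F : Finset ℕ) (hF : DegreeAtMost b n t F) :
    DegLe (ind (wrd b n F)) t := by
  obtain ⟨_, h, hdep, hsum⟩ := hF
  intro u v
  have h1 : (fun y : Fin n → Bool => ind (wrd b n F) (mx y u v)) =
      ∑ J ∈ univ.filter fun J : Finset (Fin n) => J.card ≤ t,
        fun y : Fin n → Bool => h J (num (mx y u v)) := by
    funext y
    have h2 := hsum (num (mx y u v)) (val_lt (mx y u v))
    rw [Finset.sum_apply]
    refine Eq.trans ?_ h2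
    unfold ind
    exact if_congr mem_wrd rfl rfl
  rw [h1]
  refine Submodule.sum_mem _ fun J hJ => ?_
  refine dep_lowDeg _ J (mem_filter.1 hJ).2 fun y y' hyy => ?_
  apply hdep
  intro i hi
  unfold num
  rw [digit_val, digit_val]
  simp only [mx, hyy i hi]

lemma part1 {b k n m R t : ℕ} (hb : 1 ≤ b) (hm : 1 ≤ m) (hmn : m ≤ n)
    (hR : ∀ T : Finset (Fin m → Fin b), BoxFree k T → T.card ≤ R) (A F : Finset ℕ)
    (hA : APFree k A) (hF : DegreeAtMost b n t F) :
    ((A ∩ F).card : ℝ) ≤ (R / (b : ℝ) ^ m + 2 * t * (b : ℝ) ^ (m + 1) / (n / m : ℕ)) * F.card := by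
  have : Nonempty (Fin b) := ⟨⟨0, hb⟩⟩
  have h1 := rel_degree (R := R) hm hmn (wrd b n A) (wrd b n F) (free_thin hR hA)
    (degLe b n t F hF)
  rw [wrd_inter, card_wrd hF.1, card_wrd (fun a ha => hF.1 a (mem_inter.1 ha).2),
    Fintype.card_fin] at h1
  exact h1

theorem apfree_of_three {A : Finset ℕ} (hA : ThreeAPFree (A : Set ℕ)) : APFree 3 A := by
  intro a d hd h
  have h0 := h 0 (by norm_num)
  have h1 := h 1 (by norm_num)
  have h2 := h 2 (by norm_num)
  have := hA (mem_coe.2 h0) (mem_coe.2 h1) (mem_coe.2 h2) (by ring)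
  omega

/-- **Theorem.** Let `b ≥ 1`.
(1) Let `1 ≤ m ≤ n`, `k` arbitrary, and suppose that the subsets of the box `[0, b)^m` without
progressions of length `k` (with nonnegative differences) have at most `R` elements. If `A` contains
no progression of length `k` and `F ⊆ [0, b ^ n)` has degree at most `t` in the digits, then
`|A ∩ F| ≤ (R / b ^ m + 2 t b ^ (m + 1) / ⌊n / m⌋) |F|`.
(2) Let `k ≤ b`. For every `δ > 0` there is `c > 0` such that `|A ∩ F| ≤ δ |F|` for all
`1 ≤ t ≤ c n`, all `F ⊆ [0, b ^ n)` of degree at most `t` and all `A` without progressions of length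
`k`.
(3) Let `k ≤ b`. For every `δ > 0` there is `c > 0` such that
`|A ∩ F| ≤ δ |F| + 2 b ^ n exp (- c n² / (S + n))` for all `n`, `S`, all `F ⊆ [0, b ^ n)` decided by a
formula with at most `S` leaves and all `A` without progressions of length `k`.
(4) Let `b ≥ 3`. For all `K` and `δ > 0` there are `c > 0` and `n₀` such that for all `n ≥ n₀`: if `A`
contains no three-term progression and has `r_3(b ^ n)` or at least `b ^ n exp (- K √n)` elements,
and `F ⊆ [0, b ^ n)` is decided by a formula with at most `c n ^ (3 / 2)` leaves, then the symmetric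
difference of `A` and `F` has at least `(1 - δ) (|A| + |F|)` elements. -/
theorem result (b : ℕ) (hb : 1 ≤ b) :
    (∀ k n m R t : ℕ, 1 ≤ m → m ≤ n →
      (∀ T : Finset (Fin m → Fin b), BoxFree k T → T.card ≤ R) →
      ∀ A F : Finset ℕ, APFree k A → DegreeAtMost b n t F →
        ((A ∩ F).card : ℝ) ≤
          (R / (b : ℝ) ^ m + 2 * t * (b : ℝ) ^ (m + 1) / (n / m : ℕ)) * F.card) ∧
    (∀ k : ℕ, k ≤ b → ∀ δ : ℝ, 0 < δ → ∃ c : ℝ, 0 < c ∧ ∀ n t : ℕ, 1 ≤ t → (t : ℝ) ≤ c * n →
      ∀ A F : Finset ℕ, APFree k A → DegreeAtMost b n t F →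
        ((A ∩ F).card : ℝ) ≤ δ * F.card) ∧
    (∀ k : ℕ, k ≤ b → ∀ δ : ℝ, 0 < δ → ∃ c : ℝ, 0 < c ∧ ∀ n S : ℕ,
      ∀ A F : Finset ℕ, APFree k A → Decided b n S F →
        ((A ∩ F).card : ℝ) ≤ δ * F.card + 2 * (b : ℝ) ^ n * Real.exp (-(c * n ^ 2 / (S + n)))) ∧
    (3 ≤ b → ∀ K δ : ℝ, 0 < δ → ∃ c : ℝ, 0 < c ∧ ∃ n₀ : ℕ, ∀ n ≥ n₀, ∀ (S : ℕ) (A F : Finset ℕ),
      ThreeAPFree (A : Set ℕ) →
      (A.card = rothNumberNat (b ^ n) ∨ (b : ℝ) ^ n * Real.exp (-(K * √n)) ≤ A.card) →
      (S : ℝ) ≤ c * (n * √n) → Decided b n S F →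
        (1 - δ) * ((A.card : ℝ) + F.card) ≤ (symmDiff A F).card) := by
  have hb0 : (0 : ℝ) < b := by exact_mod_cast hb
  have hne : Nonempty (Fin b) := ⟨⟨0, hb⟩⟩
  have h3 : ∀ k : ℕ, k ≤ b → ∀ δ : ℝ, 0 < δ → ∃ c : ℝ, 0 < c ∧ ∀ n S : ℕ,
      ∀ A F : Finset ℕ, APFree k A → Decided b n S F →
        ((A ∩ F).card : ℝ) ≤ δ * F.card +
          2 * (b : ℝ) ^ n * Real.exp (-(c * n ^ 2 / (S + n))) := by
    intro k hk δ hδ
    obtain ⟨m, R, hm, hR, hRδ⟩ := dens hb hk (δ := δ / 2) (by positivity)
    obtain ⟨c, hc, h⟩ := rel_formula (α := Fin b) m R hm (δ := δ / 2) (by positivity)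
    refine ⟨c, hc, fun n S A F hA hF => ?_⟩
    obtain ⟨φ, hφ, hdec⟩ := hF
    have hlt : ∀ a ∈ F, a < b ^ n := fun a ha => ((hdec a).1 ha).1
    have h2 := h n S (φ.conv b) (by rw [conv_size]; exact hφ) (wrd b n A) (wrd b n F)
      (free_thin hR hA) (fun x => by
        rw [mem_wrd, conv_acc, hdec]
        exact ⟨fun h => h.2, fun h => ⟨val_lt x, h⟩⟩)
    rw [wrd_inter, card_wrd hlt, card_wrd (fun a ha => hlt a (mem_inter.1 ha).2)] at h2
    have h4 : (R / (Fintype.card (Fin b) : ℝ) ^ m + δ / 2) * F.card ≤ δ * F.card :=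
      mul_le_mul_of_nonneg_right (by linarith) (by positivity)
    rw [Fintype.card_fin] at h2 h4
    linarith
  refine ⟨fun k n m R t hm hmn hR A F hA hF => part1 hb hm hmn hR A F hA hF, ?_, h3, ?_⟩
  · intro k hk δ hδ
    obtain ⟨m, R, hm, hR, hRδ⟩ := dens hb hk (δ := δ / 2) (by positivity)
    rw [Fintype.card_fin] at hRδ
    have hmr : (0 : ℝ) < m := by exact_mod_cast hm
    set Q : ℝ := (b : ℝ) ^ (m + 1) with hQ
    have hQ0 : 0 < Q := by positivity
    refine ⟨min (1 / m) (δ / (8 * m * Q)), by positivity, fun n t ht htn A F hA hF => ?_⟩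
    have htr : (1 : ℝ) ≤ t := by exact_mod_cast ht
    have hn0 : (0 : ℝ) ≤ n := by positivity
    have hmn : m ≤ n := by
      have h5 : (1 : ℝ) ≤ 1 / m * n :=
        (htr.trans htn).trans (mul_le_mul_of_nonneg_right (min_le_left _ _) hn0)
      rw [one_div, inv_mul_eq_div, le_div_iff₀ hmr, one_mul] at h5
      exact_mod_cast h5
    have h5 : (t : ℝ) ≤ δ / (8 * m * Q) * n :=
      htn.trans (mul_le_mul_of_nonneg_right (min_le_right _ _) hn0)
    have e2 : 1 ≤ n / m := (Nat.le_div_iff_mul_le (by omega)).2 (by omega)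
    have hg : (n : ℝ) / (2 * m) ≤ ((n / m : ℕ) : ℝ) := by
      have e1 : n < m * (n / m + 1) := Nat.lt_mul_div_succ n (by omega)
      have e3 : (n : ℝ) < m * (((n / m : ℕ) : ℝ) + 1) := by exact_mod_cast e1
      have e4 : (1 : ℝ) ≤ ((n / m : ℕ) : ℝ) := by exact_mod_cast e2
      rw [div_le_iff₀ (by positivity)]
      nlinarith
    have hgpos : (0 : ℝ) < ((n / m : ℕ) : ℝ) := by exact_mod_cast e2
    refine (part1 hb hm hmn hR A F hA hF).trans ?_
    apply mul_le_mul_of_nonneg_right _ (by positivity)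
    have h6 : 2 * t * Q / ((n / m : ℕ) : ℝ) ≤ δ / 2 := by
      rw [div_le_iff₀ hgpos]
      have h7 : δ / 2 * (n / (2 * m)) ≤ δ / 2 * ((n / m : ℕ) : ℝ) :=
        mul_le_mul_of_nonneg_left hg (by positivity)
      have h8 : 2 * t * Q ≤ δ / 2 * (n / (2 * m)) := by
        calc 2 * t * Q ≤ 2 * (δ / (8 * m * Q) * n) * Q := by gcongr
          _ = δ / 2 * (n / (2 * m)) := by
              field_simp
              ring
      linarith
    linarith
  · intro hb3 K δ hδ
    obtain ⟨c0, hc0, h⟩ := h3 3 hb3 (δ / 2) (by positivity)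
    have hlogb : 0 ≤ Real.log b := Real.log_nonneg (by exact_mod_cast hb)
    set K' : ℝ := max K (4 * √(Real.log b)) with hK'
    have hK'0 : 0 ≤ K' := le_trans (by positivity) (le_max_right _ _)
    set c : ℝ := c0 / (2 * (K' + 1)) with hc
    have hcpos : 0 < c := by positivity
    obtain ⟨n₀, hn₀⟩ := exists_nat_ge ((1 / c + 4 / δ + 1) ^ 2)
    refine ⟨c, hcpos, n₀, fun n hn S A F hA hcard hS hF => ?_⟩
    have hn1 : (1 / c + 4 / δ + 1) ^ 2 ≤ (n : ℝ) := hn₀.trans (by exact_mod_cast hn)
    have hsq : 1 / c + 4 / δ + 1 ≤ √n := Real.le_sqrt_of_sq_le hn1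
    have hi1 : 0 < 1 / c := by positivity
    have hi2 : 0 < 4 / δ := by positivity
    have hs0 : 0 < √(n : ℝ) := by linarith
    have hnn : √(n : ℝ) * √n = n := Real.mul_self_sqrt (Nat.cast_nonneg n)
    have hnpos : (0 : ℝ) < n := by rw [← hnn]; positivity
    have hbn : (0 : ℝ) < (b : ℝ) ^ n := by positivity
    -- the lower bound for `|A|`
    have hlow : (b : ℝ) ^ n * Real.exp (-(K' * √n)) ≤ A.card := by
      rcases hcard with h | h
      · rw [h]
        refine le_trans ?_ (Behrend.roth_lower_bound (N := b ^ n))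
        push_cast
        refine mul_le_mul_of_nonneg_left (Real.exp_le_exp.2 ?_) hbn.le
        rw [Real.log_pow, Real.sqrt_mul (Nat.cast_nonneg n)]
        have h4 : 4 * √(Real.log b) ≤ K' := le_max_right _ _
        have h5 := mul_le_mul_of_nonneg_right h4 (Real.sqrt_nonneg (n : ℝ))
        nlinarith
      · refine le_trans (mul_le_mul_of_nonneg_left (Real.exp_le_exp.2 ?_) hbn.le) h
        have h5 := mul_le_mul_of_nonneg_right (le_max_left K (4 * √(Real.log b)))
          (Real.sqrt_nonneg (n : ℝ))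
        linarith
    -- the error term
    have h4 : (K' + 1) * √n ≤ c0 * (n : ℝ) ^ 2 / (S + n) := by
      have e1 : (n : ℝ) ≤ c * (n * √n) := by
        have e2 : 1 ≤ c * √n := by
          have e3 : 1 / c ≤ √n := by linarith
          rwa [div_le_iff₀ hcpos, mul_comm] at e3
        nlinarith
      have e2 : (S : ℝ) + n ≤ 2 * c * (n * √n) := by linarith
      have e3 : (0 : ℝ) < S + n := by positivity
      rw [le_div_iff₀ e3]
      calc (K' + 1) * √n * (S + n) ≤ (K' + 1) * √n * (2 * c * (n * √n)) := by gcongr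
        _ = (K' + 1) * (2 * c) * n * (√n * √n) := by ring
        _ = c0 * (n : ℝ) ^ 2 := by
            rw [hnn, hc]
            field_simp
    have h5 : 2 * (b : ℝ) ^ n * Real.exp (-(c0 * n ^ 2 / (S + n))) ≤ δ / 2 * A.card := by
      have e1 : Real.exp (-(c0 * (n : ℝ) ^ 2 / (S + n))) ≤
          Real.exp (-(K' * √n)) * Real.exp (-√n) := by
        rw [← Real.exp_add]
        apply Real.exp_le_exp.2
        linarith
      have e2 : Real.exp (-√n) ≤ δ / 4 := by
        have e3 : 4 / δ ≤ Real.exp (√n) := by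
          have := Real.add_one_le_exp (√(n : ℝ))
          linarith
        rw [Real.exp_neg, inv_le_comm₀ (Real.exp_pos _) (by positivity)]
        rw [inv_div]
        exact e3
      calc 2 * (b : ℝ) ^ n * Real.exp (-(c0 * n ^ 2 / (S + n)))
          ≤ 2 * (b : ℝ) ^ n * (Real.exp (-(K' * √n)) * Real.exp (-√n)) := by gcongr
        _ ≤ 2 * (b : ℝ) ^ n * (Real.exp (-(K' * √n)) * (δ / 4)) := by gcongr
        _ = δ / 2 * ((b : ℝ) ^ n * Real.exp (-(K' * √n))) := by ring
        _ ≤ δ / 2 * A.card := mul_le_mul_of_nonneg_left hlow (by positivity)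
    have h6 := h n S A F (apfree_of_three hA) hF
    have h7 : ((symmDiff A F).card : ℝ) + 2 * (A ∩ F).card = A.card + F.card := by
      have e1 : (symmDiff A F).card = (A \ F).card + (F \ A).card := by
        rw [symmDiff_def, sup_eq_union, card_union_of_disjoint]
        exact disjoint_sdiff_sdiff
      have e2 := card_sdiff_add_card_inter A F
      have e3 := card_sdiff_add_card_inter F A
      rw [inter_comm F A] at e3
      have e4 : (symmDiff A F).card + 2 * (A ∩ F).card = A.card + F.card := by omega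
      exact_mod_cast e4
    have h8 : (0 : ℝ) ≤ F.card := by positivity
    nlinarith

end Pool.Agent.Results.MP_0f71ae_nt.RelativeFormulas
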